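import Mathlib

/-!
# Contact process on dynamical long-range percolation: definitions (MP_7adf6c_pr)

Poisson processes, the contact process driven by space-time marks (graphical representation),
the static and the dynamical long-range models, and their critical values.
-/

namespace Pool.Agent.H958.LR

open MeasureTheory ProbabilityTheory Set
open scoped ENNReal NNReal Nat

/-- Independent Poisson processes on `(0, ∞)` indexed by `ι`: `N i ω` is the (random) set of the
points of the process `i`, which has the rate `rate i`.  The numbers of points in bounded intervals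
`(a, b]` are random variables with the Poisson law with mean `rate i * (b - a)`, and the numbers of
points of arbitrarily many pairwise disjoint pieces `{i} × (a, b]` are independent. -/
structure IsPoissonFamily {ι Ω : Type} [MeasurableSpace Ω] (P : Measure Ω) (rate : ι → ℝ)
    (N : ι → Ω → Set ℝ) : Prop where
  rate_nonneg : ∀ i, 0 ≤ rate i
  meas : ∀ i a b, 0 ≤ a → Measurable fun ω => (N i ω ∩ Ioc a b).encard
  law : ∀ i a b, 0 ≤ a → a ≤ b → ∀ k : ℕ,
    P {ω | (N i ω ∩ Ioc a b).encard = (k : ℕ∞)} =
      ENNReal.ofReal (Real.exp (-(rate i * (b - a))) * (rate i * (b - a)) ^ k / (k)!)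
  indep : ∀ (κ : Type) (l : κ → ι) (a b : κ → ℝ), (∀ k, 0 ≤ a k) →
    (∀ j k, j ≠ k → l j = l k → Disjoint (Ioc (a j) (b j)) (Ioc (a k) (b k))) →
    iIndepFun (fun k ω => (N (l k) ω ∩ Ioc (a k) (b k)).encard) P

variable {V : Type}

/-- Infection paths.  `rec x` is the set of the recovery times of `x`, `tr e` the set of the times
at which the infection can cross the pair `e` (in both directions); `Infected rec tr o x t` says
that the vertex `x` is infected at time `t` when only `o` is infected at time `0`. -/
inductive Infected (rec : V → Set ℝ) (tr : Sym2 V → Set ℝ) (o : V) : V → ℝ → Prop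
  | start : Infected rec tr o o 0
  | stay {x : V} {s t : ℝ} : Infected rec tr o x s → s ≤ t → (∀ u, s < u → u ≤ t → u ∉ rec x) →
      Infected rec tr o x t
  | cross {x y : V} {t : ℝ} : Infected rec tr o x t → x ≠ y → 0 < t → t ∈ tr s(x, y) →
      Infected rec tr o y t

/-- The infection started from `o` survives: at every time some vertex is infected. -/
def Survives (rec : V → Set ℝ) (tr : Sym2 V → Set ℝ) (o : V) : Prop :=
  ∀ t : ℝ, 0 ≤ t → ∃ x, Infected rec tr o x t

open Classical in
/-- The value of a function of the distance on an unordered pair of vertices; the value on the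
diagonal is `0` (there are no loops). -/
noncomputable def pairVal (G : SimpleGraph V) (f : ℕ → ℝ) : Sym2 V → ℝ :=
  Sym2.lift ⟨fun x y => if x = y then 0 else f (G.dist x y), fun x y => by
    by_cases h : x = y
    · subst h; rfl
    · simp only [if_neg h, if_neg (Ne.symm h), SimpleGraph.dist_comm]⟩

/-- Rates of the graphical representation of the static long-range contact process with infection
kernel `lam * q * p`: the pair `e` transmits the infection at rate `lam * q * p e`, every vertex
recovers at rate `1`. -/
noncomputable def staticRate (G : SimpleGraph V) (p : ℕ → ℝ) (lam q : ℝ) : Sym2 V ⊕ V → ℝ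
  | Sum.inl e => lam * q * pairVal G p e
  | Sum.inr _ => 1

/-- The static long-range contact process started from `o`: `N` is a family of independent Poisson
processes with the rates `staticRate`. -/
def StaticSurvives {Ω : Type} (N : Sym2 V ⊕ V → Ω → Set ℝ) (o : V) (ω : Ω) : Prop :=
  Survives (fun x => N (Sum.inr x) ω) (fun e => N (Sum.inl e) ω) o

/-- Labels of the Poisson processes of the dynamical model: attempted transmissions across `e`,
openings of `e`, closings of `e`, recoveries of `x`. -/
inductive Label (V : Type)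
  | att (e : Sym2 V) : Label V
  | opn (e : Sym2 V) : Label V
  | cls (e : Sym2 V) : Label V
  | rcv (x : V) : Label V

open Classical in
/-- Rates of the dynamical model: attempted transmissions at rate `lam`, a closed pair becomes open
at rate `gam * v e * (q * p e)`, an open pair becomes closed at rate `gam * v e * (1 - q * p e)`,
recoveries at rate `1`. -/
noncomputable def dynRate (G : SimpleGraph V) (p v : ℕ → ℝ) (lam gam q : ℝ) : Label V → ℝ
  | Label.att e => if e.IsDiag then 0 else lam
  | Label.opn e => gam * pairVal G v e * (q * pairVal G p e)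
  | Label.cls e => gam * pairVal G v e * (1 - q * pairVal G p e)
  | Label.rcv _ => 1

/-- The pair `e` is open at time `t`: either there is an opening mark `s ≤ t` with no closing mark
in `(s, t]`, or `e` is open at time `0` and there is no closing mark in `(0, t]`. -/
def OpenAt (B0 : Set (Sym2 V)) (opn cls : Sym2 V → Set ℝ) (e : Sym2 V) (t : ℝ) : Prop :=
  (∃ s ∈ opn e, 0 < s ∧ s ≤ t ∧ ∀ u ∈ cls e, ¬ (s < u ∧ u ≤ t)) ∨
    (e ∈ B0 ∧ ∀ u ∈ cls e, ¬ (0 < u ∧ u ≤ t))

/-- The dynamical model: independent Poisson processes with the rates `dynRate`, and an initial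
background `B0` in which the pairs are open independently with the stationary probabilities
`q * p e`, independent of the Poisson processes. -/
structure IsDynamic (G : SimpleGraph V) (p v : ℕ → ℝ) (lam gam q : ℝ) {Ω : Type}
    [MeasurableSpace Ω] (P : Measure Ω) (N : Label V → Ω → Set ℝ) (B0 : Ω → Set (Sym2 V)) :
    Prop where
  poisson : IsPoissonFamily P (dynRate G p v lam gam q) N
  meas0 : ∀ e, MeasurableSet {ω | e ∈ B0 ω}
  law0 : ∀ e, P {ω | e ∈ B0 ω} = ENNReal.ofReal (q * pairVal G p e)
  indep0 : iIndepSet (fun e => {ω | e ∈ B0 ω}) P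
  indepN : Indep (MeasurableSpace.generateFrom {A | ∃ e, A = {ω | e ∈ B0 ω}})
    (⨆ i : Label V, ⨆ a : ℝ, ⨆ b : ℝ, ⨆ _ : 0 ≤ a,
      MeasurableSpace.comap (fun ω => (N i ω ∩ Ioc a b).encard) inferInstance) P

/-- The contact process on the dynamical background, started from `o`, survives. -/
def DynSurvives {Ω : Type} (N : Label V → Ω → Set ℝ) (B0 : Ω → Set (Sym2 V)) (o : V) (ω : Ω) :
    Prop :=
  Survives (fun x => N (Label.rcv x) ω)
    (fun e => {t | t ∈ N (Label.att e) ω ∧
      OpenAt (B0 ω) (fun e => N (Label.opn e) ω) (fun e => N (Label.cls e) ω) e t}) o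

/-- `θ^∞(lam, q) > 0`: the static process with parameter `lam` survives with positive
probability. -/
def StaticPos (G : SimpleGraph V) (p : ℕ → ℝ) (lam q : ℝ) (o : V) : Prop :=
  ∃ (Ω : Type) (_ : MeasurableSpace Ω) (P : Measure Ω) (_ : IsProbabilityMeasure P)
    (N : Sym2 V ⊕ V → Ω → Set ℝ), IsPoissonFamily P (staticRate G p lam q) N ∧
      P {ω | StaticSurvives N o ω} ≠ 0

/-- `θ(lam, gam, q) > 0`: the contact process on the dynamical background survives with positive
probability. -/
def DynPos (G : SimpleGraph V) (p v : ℕ → ℝ) (lam gam q : ℝ) (o : V) : Prop :=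
  ∃ (Ω : Type) (_ : MeasurableSpace Ω) (P : Measure Ω) (_ : IsProbabilityMeasure P)
    (N : Label V → Ω → Set ℝ) (B0 : Ω → Set (Sym2 V)), IsDynamic G p v lam gam q P N B0 ∧
      P {ω | DynSurvives N B0 o ω} ≠ 0

/-- The critical value `λ_c^∞(q)` of the static long-range contact process. -/
noncomputable def lamStatic (G : SimpleGraph V) (p : ℕ → ℝ) (q : ℝ) (o : V) : ℝ≥0∞ :=
  sInf {l | ∃ lam : ℝ, 0 ≤ lam ∧ StaticPos G p lam q o ∧ l = ENNReal.ofReal lam}

/-- The critical value `λ_c(γ, q)` of the contact process on dynamical long-range percolation. -/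
noncomputable def lamDyn (G : SimpleGraph V) (p v : ℕ → ℝ) (gam q : ℝ) (o : V) : ℝ≥0∞ :=
  sInf {l | ∃ lam : ℝ, 0 ≤ lam ∧ DynPos G p v lam gam q o ∧ l = ENNReal.ofReal lam}

/-- The standing assumptions of the problem on the graph and on the parameters. -/
structure Data (G : SimpleGraph V) (p v : ℕ → ℝ) (q : ℝ) : Prop where
  connected : G.Connected
  transitive : ∀ x y : V, ∃ g : G ≃g G, g x = y
  bounded : ∃ D : ℕ, ∀ x, (G.neighborSet x).encard ≤ D
  p_mem : ∀ n, 0 ≤ p n ∧ p n ≤ 1
  v_pos : ∀ n, 0 < v n
  sum_vp : ∀ x, Summable fun y : {y : V // y ≠ x} => v (G.dist x y) * p (G.dist x y)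
  sum_v : ∀ x, Summable fun y : {y : V // y ≠ x} => (v (G.dist x y))⁻¹
  q_pos : 0 < q
  q_le : q ≤ 1

end Pool.Agent.H958.LR
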