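import Pool.Agent.H958.LR.Stm

/-! Project LR: [DET], infection paths pass through the windows. -/

namespace Pool.Agent.H958.LR

open Set

variable {V : Type} {rec : V → Set ℝ} {tr : Sym2 V → Set ℝ} {o : V}

theorem Infected.nonneg {x : V} {t : ℝ} (h : Infected rec tr o x t) : 0 ≤ t := by
  induction h with
  | start => exact le_refl _
  | stay _ hst _ ih => exact ih.trans hst
  | cross _ _ ht _ _ => exact ht.le

theorem Infected.at_zero {x : V} {t : ℝ} (h : Infected rec tr o x t) (ht : t = 0) : x = o := by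
  induction h with
  | start => rfl
  | stay h hst _ ih => exact ih (le_antisymm (hst.trans ht.le) h.nonneg)
  | cross _ _ ht' _ _ => exact absurd ht ht'.ne'

/-- the window relation up to time `t` inside of window `j` -/
def Mid (rec : V → Set ℝ) (ω : Win V) (δ : ℝ) (j : ℕ) (x y : V) (t : ℝ) : Prop :=
  (x = y ∧ ∀ u, j * δ < u → u ≤ t → u ∉ rec x) ∨
    Relation.TransGen (fun a b => a ≠ b ∧ ω (Sum.inl s(a, b), j) = true) x y

theorem mid_of_infected {δ : ℝ} {ω : Win V}
    (htr : ∀ e (j : ℕ) t, ¬ e.IsDiag → j * δ < t → t ≤ (j + 1) * δ → t ∈ tr e →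
      ω (Sum.inl e, j) = true) (j : ℕ) {y : V} {t : ℝ} (h : Infected rec tr o y t)
    (h1 : j * δ ≤ t) (h2 : t ≤ (j + 1) * δ) (hδ : 0 < δ) :
    ∃ x, Infected rec tr o x (j * δ) ∧ Mid rec ω δ j x y t := by
  induction h with
  | start =>
    have : (j : ℝ) * δ = 0 := le_antisymm h1 (by positivity)
    refine ⟨o, by rw [this]; exact Infected.start, Or.inl ⟨rfl, fun u hu hu' => ?_⟩⟩
    rw [this] at hu
    exact absurd hu' (not_le.2 hu)
  | @stay x s t hs hst hrec ih =>
    by_cases hjs : (j : ℝ) * δ ≤ s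
    · obtain ⟨x', hx', hm⟩ := ih hjs (hst.trans h2)
      refine ⟨x', hx', ?_⟩
      rcases hm with ⟨rfl, hm⟩ | hm
      · refine Or.inl ⟨rfl, fun u hu hu' => ?_⟩
        by_cases hus : u ≤ s
        · exact hm u hu hus
        · exact hrec u (not_le.1 hus) hu'
      · exact Or.inr hm
    · refine ⟨x, Infected.stay hs (not_le.1 hjs).le fun u hu hu' => hrec u hu (hu'.trans h1), 
        Or.inl ⟨rfl, fun u hu hu' => hrec u ((not_le.1 hjs).trans hu) hu'⟩⟩
  | @cross x y t hx hxy ht htr' ih =>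
    rcases h1.eq_or_lt with he | hlt
    · refine ⟨y, by rw [he]; exact Infected.cross hx hxy ht htr', Or.inl ⟨rfl, fun u hu hu' => ?_⟩⟩
      rw [he] at hu
      exact absurd hu' (not_le.2 hu)
    · obtain ⟨x', hx', hm⟩ := ih hlt.le h2
      have hstep : x ≠ y ∧ ω (Sum.inl s(x, y), j) = true :=
        ⟨hxy, htr _ _ _ (by simpa using hxy) hlt h2 htr'⟩
      refine ⟨x', hx', Or.inr ?_⟩
      rcases hm with ⟨rfl, -⟩ | hm
      · exact Relation.TransGen.single hstep
      · exact hm.tail hstep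

theorem reachW_snoc {ω : Win V} : ∀ (m j : ℕ) {x y z : V}, ReachW ω j m x y →
    WStep ω (j + m) y z → ReachW ω j (m + 1) x z
  | 0, j, x, y, z, h, hw => by
      obtain rfl : x = y := h
      exact ⟨z, hw, rfl⟩
  | m + 1, j, x, y, z, ⟨w, hw', h⟩, hw => by
      refine ⟨w, hw', reachW_snoc m (j + 1) h ?_⟩
      rwa [show j + 1 + m = j + (m + 1) by ring]

theorem s_det : S_DET := by
  intro V rec tr o δ ω hδ htr hrec m
  induction m with
  | zero =>
    intro y h
    have := h.at_zero (by simp)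
    exact this.symm
  | succ m ih =>
    intro y h
    push_cast at h
    obtain ⟨x, hx, hm⟩ := mid_of_infected htr m h (by nlinarith) le_rfl hδ
    have := ih x hx
    refine reachW_snoc m 0 this ?_
    rw [zero_add]
    rcases hm with ⟨rfl, hm⟩ | hm
    · exact Or.inl ⟨rfl, hrec _ _ hm⟩
    · exact Or.inr hm

end Pool.Agent.H958.LR
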