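import Pool.Agent.H958.LR.Ker

/-! Project LR: the family of parameters and the estimate of `psi`. -/

namespace Pool.Agent.H958.LR

open MeasureTheory ProbabilityTheory Set Filter
open scoped ENNReal NNReal Topology

variable {V : Type} {G : SimpleGraph V} {p v : ℕ → ℝ} {q : ℝ}

/-- the family of parameters -/
noncomputable def ps (G : SimpleGraph V) (p : ℕ → ℝ) (lam1 q δ : ℝ) (Λ : Finset V) (s : ℝ) :
    Sym2 Λ ⊕ Λ → ℝ
  | Sum.inl e => 1 - Real.exp (-(lam1 * Real.exp s * q * pairVal G p (e.map Subtype.val) * δ))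
  | Sum.inr _ => Real.exp (-(Real.exp (-s) * δ))

/-- the derivatives of the parameters -/
noncomputable def ps' (G : SimpleGraph V) (p : ℕ → ℝ) (lam1 q δ : ℝ) (Λ : Finset V) (s : ℝ) :
    Sym2 Λ ⊕ Λ → ℝ
  | Sum.inl e => (lam1 * Real.exp s * q * pairVal G p (e.map Subtype.val) * δ) *
      Real.exp (-(lam1 * Real.exp s * q * pairVal G p (e.map Subtype.val) * δ))
  | Sum.inr _ => (Real.exp (-s) * δ) * Real.exp (-(Real.exp (-s) * δ))

theorem ps_mem (hp : ∀ n, 0 ≤ p n ∧ p n ≤ 1) {lam1 δ : ℝ} (hl : 0 ≤ lam1) (hq : 0 ≤ q)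
    (hδ : 0 ≤ δ) (Λ : Finset V) (s : ℝ) (i : Sym2 Λ ⊕ Λ) :
    0 ≤ ps G p lam1 q δ Λ s i ∧ ps G p lam1 q δ Λ s i ≤ 1 := by
  rcases i with e | x
  · have h : 0 ≤ lam1 * Real.exp s * q * pairVal G p (e.map Subtype.val) * δ := by
      have := pairVal_nonneg (G := G) (fun n => (hp n).1) (e.map Subtype.val)
      positivity
    have h1 : Real.exp (-(lam1 * Real.exp s * q * pairVal G p (e.map Subtype.val) * δ)) ≤ 1 :=
      Real.exp_le_one_iff.2 (by linarith)
    have h2 := Real.exp_pos (-(lam1 * Real.exp s * q * pairVal G p (e.map Subtype.val) * δ))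
    simp only [ps]
    constructor <;> linarith
  · simp only [ps]
    exact ⟨(Real.exp_pos _).le, Real.exp_le_one_iff.2 (by
      have := Real.exp_pos (-s)
      nlinarith)⟩

theorem ps_deriv (Λ : Finset V) (lam1 δ s : ℝ) (i : Sym2 Λ ⊕ Λ) :
    HasDerivAt (fun s => ps G p lam1 q δ Λ s i) (ps' G p lam1 q δ Λ s i) s := by
  rcases i with e | x
  · simp only [ps, ps']
    set c := pairVal G p (e.map Subtype.val)
    have h0 : HasDerivAt (fun s : ℝ => -(lam1 * Real.exp s * q * c * δ))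
        (-(lam1 * Real.exp s * q * c * δ)) s := by
      have := ((((Real.hasDerivAt_exp s).const_mul lam1).mul_const q).mul_const c).mul_const δ
      exact this.neg
    exact ((h0.exp).const_sub 1).congr_deriv (by ring)
  · simp only [ps, ps']
    have h0 : HasDerivAt (fun s : ℝ => -(Real.exp (-s) * δ)) (Real.exp (-s) * δ) s := by
      exact ((((hasDerivAt_neg s).exp).mul_const δ).neg).congr_deriv (by ring)
    exact h0.exp.congr_deriv (by ring)

theorem mul_exp_ge (x : ℝ) :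
    (1 - Real.exp (-x)) * (1 - (1 - Real.exp (-x))) ≤ x * Real.exp (-x) := by
  have h1 := Real.add_one_le_exp (-x)
  have h2 := Real.exp_pos (-x)
  have : 1 - Real.exp (-x) ≤ x := by linarith
  nlinarith

theorem mul_exp_ge' (x : ℝ) :
    Real.exp (-x) * (1 - Real.exp (-x)) ≤ x * Real.exp (-x) := by
  have h1 := Real.add_one_le_exp (-x)
  have h2 := Real.exp_pos (-x)
  have : 1 - Real.exp (-x) ≤ x := by linarith
  nlinarith

theorem ps_ineq (lam1 δ : ℝ) (Λ : Finset V) (s : ℝ) (i : Sym2 Λ ⊕ Λ) :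
    ps G p lam1 q δ Λ s i * (1 - ps G p lam1 q δ Λ s i) ≤ ps' G p lam1 q δ Λ s i := by
  rcases i with e | x
  · simp only [ps, ps']
    exact mul_exp_ge _
  · simp only [ps, ps']
    exact mul_exp_ge' _

theorem ps_eq_pStat (lam1 s0 : ℝ) (Λ : Finset V) (k : ℕ) :
    ps G p lam1 q (Real.exp s0 * (1 / 2) ^ k) Λ s0 =
      pStat G p (lam1 * Real.exp (2 * s0)) q Λ k := by
  funext i
  rcases i with e | x
  · simp only [ps, pStat]
    congr 3
    rw [show 2 * s0 = s0 + s0 by ring, Real.exp_add]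
    ring
  · simp only [ps, pStat]
    congr 2
    rw [← mul_assoc, ← Real.exp_add]
    simp

theorem EP_nonneg {Λ : Type} [Fintype Λ] [DecidableEq Λ] (n : ℕ) (p : Sym2 Λ ⊕ Λ → ℝ)
    (hp : ∀ i, 0 ≤ p i ∧ p i ≤ 1) (A : Win Λ → Prop) : 0 ≤ EP n p A := by
  unfold EP
  refine Finset.sum_nonneg fun η _ => mul_nonneg (Finset.prod_nonneg fun i _ => ?_) ?_
  · split_ifs
    · exact (hp _).1
    · linarith [(hp i.1).2]
  · split_ifs <;> norm_num

/-- The estimate of `psi` at the limit parameters. -/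
theorem psi_le {Λ : Type} [Fintype Λ] [DecidableEq Λ] (pp : Sym2 Λ ⊕ Λ → ℝ) (n : ℕ)
    (S : ℕ → Set Λ) (o : Λ) (ρ r : ℝ) (out : Λ → ℝ) (hp : ∀ i, 0 ≤ pp i ∧ pp i ≤ 1)
    (hρ : 0 < ρ) (hρp : ∀ y, ρ ≤ pp (Sum.inr y)) (hr : 0 ≤ r)
    (hout : ∀ y, 0 ≤ out y) :
    psi pp n S o ρ r out ≤ (1 + r / ρ) * phiS pp n S o +
      ∑ j ∈ Finset.range n, ∑ y, FI pp n S o j y * out y +
      ((1 - ρ) * r + r ^ 2 / (1 - r)) * ∑ j ∈ Finset.range n, ∑ y, FI pp n S o j y := by
  classical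
  unfold psi phiS
  rw [Finset.mul_sum, Finset.mul_sum, ← Finset.sum_add_distrib, ← Finset.sum_add_distrib]
  refine Finset.sum_le_sum fun j _ => ?_
  rw [Finset.mul_sum, Finset.mul_sum, ← Finset.sum_add_distrib, ← Finset.sum_add_distrib]
  refine Finset.sum_le_sum fun y _ => ?_
  have hF : 0 ≤ FI pp n S o j y := EP_nonneg _ _ hp _
  have hrρ : 0 ≤ r / ρ := div_nonneg hr hρ.le
  have key : ((if y ∈ S (j + 1) then (∑ z, (if z ∈ S (j + 1) then 0 else pp (Sum.inl s(y, z)))) +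
      out y else ρ + r)) ≤ (1 + r / ρ) * exitW pp S j y + out y := by
    unfold exitW
    split_ifs with h
    · have : 0 ≤ ∑ z, (if z ∈ S (j + 1) then 0 else pp (Sum.inl s(y, z))) :=
        Finset.sum_nonneg fun z _ => by split_ifs; exacts [le_rfl, (hp _).1]
      nlinarith
    · have h1 : ρ + r = (1 + r / ρ) * ρ := by field_simp
      have h2 := hρp y
      have h3 := hout y
      rw [h1]
      have : (1 + r / ρ) * ρ ≤ (1 + r / ρ) * pp (Sum.inr y) :=
        mul_le_mul_of_nonneg_left h2 (by linarith)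
      linarith
  have := mul_le_mul_of_nonneg_left (add_le_add_left key ((1 - ρ) * r + r ^ 2 / (1 - r))) hF
  calc _ ≤ FI pp n S o j y * (((1 + r / ρ) * exitW pp S j y + out y) +
        ((1 - ρ) * r + r ^ 2 / (1 - r))) := this
    _ = _ := by ring

/-- Continuity of `psi`. -/
theorem psi_tendsto (hL : S_LAW) {Λ : Type} [Fintype Λ] [DecidableEq Λ] (n : ℕ)
    (S : ℕ → Set Λ) (o : Λ) (ρ : ℝ) {F : Filter ℝ} {pg : ℝ → Sym2 Λ ⊕ Λ → ℝ} {rg : ℝ → ℝ}
    {og : ℝ → Λ → ℝ} {pp : Sym2 Λ ⊕ Λ → ℝ} {r : ℝ} {out : Λ → ℝ} (h1 : Tendsto pg F (𝓝 pp))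
    (h2 : Tendsto rg F (𝓝 r)) (h3 : Tendsto og F (𝓝 out)) (hr : r < 1) :
    Tendsto (fun g => psi (pg g) n S o ρ (rg g) (og g)) F (𝓝 (psi pp n S o ρ r out)) := by
  classical
  unfold psi
  refine tendsto_finsetSum _ fun j _ => tendsto_finsetSum _ fun y _ => ?_
  have hFI : Tendsto (fun g => FI (pg g) n S o j y) F (𝓝 (FI pp n S o j y)) :=
    ((hL.2.2.2 Λ n (fun ω => Inner ω S o j y)).tendsto pp).comp h1
  have hc : ∀ i, Tendsto (fun g => pg g i) F (𝓝 (pp i)) := fun i =>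
    ((continuous_apply i).tendsto pp).comp h1
  have ho : Tendsto (fun g => og g y) F (𝓝 (out y)) :=
    ((continuous_apply y).tendsto out).comp h3
  refine hFI.mul (Tendsto.add ?_ ?_)
  · split_ifs with h
    · refine Tendsto.add (tendsto_finsetSum _ fun z _ => ?_) ho
      split_ifs
      · exact tendsto_const_nhds
      · exact hc _
    · exact tendsto_const_nhds.add h2
  · refine (tendsto_const_nhds.mul h2).add ((h2.pow 2).div (tendsto_const_nhds.sub h2) ?_)
    linarith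

end Pool.Agent.H958.LR
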