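import Pool.Agent.H958.LR.Est
import Pool.Agent.H958.LR.Det

/-! Project LR: row sums of the dominating kernel. -/

namespace Pool.Agent.H958.LR

open MeasureTheory ProbabilityTheory Set Filter
open scoped ENNReal NNReal Topology

variable {V : Type} {G : SimpleGraph V} {p v : ℕ → ℝ} {q : ℝ}

theorem tsum_ofReal_comb {β : Type} {f g : β → ℝ} (hf : ∀ x, 0 ≤ f x) (hg : ∀ x, 0 ≤ g x)
    (hfs : Summable f) (hgs : Summable g) {c d : ℝ} (hc : 0 ≤ c) (hd : 0 ≤ d) :
    ∑' x, ENNReal.ofReal (c * f x + d * g x) = ENNReal.ofReal (c * ∑' x, f x + d * ∑' x, g x) := by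
  have hs : Summable fun x => c * f x + d * g x := (hfs.mul_left c).add (hgs.mul_left d)
  rw [← ENNReal.ofReal_tsum_of_nonneg (fun x => add_nonneg (mul_nonneg hc (hf x))
    (mul_nonneg hd (hg x))) hs]
  congr 1
  rw [(hfs.mul_left c).tsum_add (hgs.mul_left d), tsum_mul_left, tsum_mul_left]

theorem vinv_nonneg (hv : ∀ n, 0 < v n) (n : ℕ) : 0 ≤ (fun n => (v n)⁻¹) n :=
  (inv_pos.2 (hv n)).le

theorem row_sum (hD : Data G p v q) (o x : V) {c d : ℝ} (hc : 0 ≤ c) (hd : 0 ≤ d) :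
    ∑' y, ENNReal.ofReal (c * pairVal G p s(x, y) + d * pairVal G (fun n => (v n)⁻¹) s(x, y)) =
      ENNReal.ofReal (c * ∑' y, pairVal G p s(o, y) +
        d * ∑' y, pairVal G (fun n => (v n)⁻¹) s(o, y)) := by
  obtain ⟨g, hg⟩ := hD.transitive o x
  rw [tsum_ofReal_comb (fun y => pairVal_nonneg (fun n => (hD.p_mem n).1) _)
    (fun y => pairVal_nonneg (vinv_nonneg hD.v_pos) _) (hD.sum_p x) (hD.sum_vinv x) hc hd,
    tsum_pairVal_eq hD.connected p g hg, tsum_pairVal_eq hD.connected _ g hg]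

theorem out_sum (hD : Data G p v q) (o : V) (Λ : Finset V) (g : G ≃g G) (y : Λ) {c d : ℝ}
    (hc : 0 ≤ c) (hd : 0 ≤ d) :
    ∑' z : {z : V // z ∉ Set.range fun y : Λ => g y},
      ENNReal.ofReal (c * pairVal G p s(g y, z) + d * pairVal G (fun n => (v n)⁻¹) s(g y, z)) ≤
      ENNReal.ofReal (c * ∑' z : {z : V // z ∉ Λ}, pairVal G p s((y : V), (z : V)) +
        d * ∑' z, pairVal G (fun n => (v n)⁻¹) s(o, z)) := by
  have hiff : ∀ z : V, z ∉ Λ ↔ g z ∉ Set.range fun y : Λ => g y := by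
    intro z
    simp only [Set.mem_range, Subtype.exists, not_exists]
    constructor
    · intro hz w hw hwz
      exact hz (g.injective hwz ▸ hw)
    · intro h hz
      exact h z hz rfl
  let E : {z : V // z ∉ Λ} ≃ {z : V // z ∉ Set.range fun y : Λ => g y} :=
    Equiv.subtypeEquiv g.toEquiv hiff
  rw [← E.tsum_eq]
  have h1 : ∀ z : {z : V // z ∉ Λ}, ENNReal.ofReal (c * pairVal G p s(g y, (E z : V)) +
      d * pairVal G (fun n => (v n)⁻¹) s(g y, (E z : V))) =
      ENNReal.ofReal (c * pairVal G p s((y : V), (z : V)) +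
        d * pairVal G (fun n => (v n)⁻¹) s((y : V), (z : V))) := by
    intro z
    have : (E z : V) = g z := rfl
    rw [this, pairVal_iso g hD.connected, pairVal_iso g hD.connected]
  rw [tsum_congr h1]
  have hsp := (hD.sum_p (y : V)).subtype {z : V | z ∉ Λ}
  have hsv := (hD.sum_vinv (y : V)).subtype {z : V | z ∉ Λ}
  have hpn : ∀ z : V, 0 ≤ pairVal G p s((y : V), z) := fun z =>
    pairVal_nonneg (fun n => (hD.p_mem n).1) _
  have hvn : ∀ z : V, 0 ≤ pairVal G (fun n => (v n)⁻¹) s((y : V), z) := fun z =>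
    pairVal_nonneg (vinv_nonneg hD.v_pos) _
  have h2 := tsum_ofReal_comb (β := {z : V // z ∉ Λ})
    (f := fun z => pairVal G p s((y : V), (z : V)))
    (g := fun z => pairVal G (fun n => (v n)⁻¹) s((y : V), (z : V)))
    (fun z => hpn z) (fun z => hvn z) hsp hsv hc hd
  rw [h2]
  refine ENNReal.ofReal_le_ofReal (add_le_add_right ?_ _)
  refine mul_le_mul_of_nonneg_left ?_ hd
  obtain ⟨g', hg'⟩ := hD.transitive o y
  rw [← tsum_pairVal_eq hD.connected (fun n => (v n)⁻¹) g' hg']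
  exact Summable.tsum_subtype_le _ {z : V | z ∉ Λ} hvn (hD.sum_vinv (y : V))

end Pool.Agent.H958.LR
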