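import Pool.Agent.H958.LR.Fin1

/-! Project LR: choice of the finite region, of the window length and of the set `S`. -/

namespace Pool.Agent.H958.LR

open MeasureTheory ProbabilityTheory Set Filter
open scoped ENNReal NNReal Topology

variable {V : Type} {G : SimpleGraph V} {p v : ℕ → ℝ} {q : ℝ}

theorem num1 {lam1 lam2 δ c s : ℝ} (h1 : 0 ≤ lam1) (hδ : 0 ≤ δ) (hq : 0 ≤ q) (hq1 : q ≤ 1)
    (hc : 0 ≤ c) (hc1 : c ≤ 1) (hs : 0 ≤ s) (h2 : 0 ≤ lam2) (h : lam2 * (1 + lam1 * δ) ≤ lam1) :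
    lam2 * (q * c * δ) ≤ 1 - Real.exp (-(lam1 * Real.exp s * q * c * δ)) := by
  set y := q * c * δ with hy
  have hy0 : 0 ≤ y := by positivity
  have hqc : q * c ≤ 1 := by nlinarith
  have hyδ : y ≤ δ := by
    rw [hy]; nlinarith
  set x := lam1 * y with hx
  have hx0 : 0 ≤ x := by positivity
  have hes : 1 ≤ Real.exp s := Real.one_le_exp hs
  have e1 : Real.exp (-(lam1 * Real.exp s * q * c * δ)) ≤ Real.exp (-x) := by
    refine Real.exp_le_exp.2 (neg_le_neg ?_)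
    have : lam1 * Real.exp s * q * c * δ = Real.exp s * x := by rw [hx, hy]; ring
    rw [this]
    nlinarith
  have e2 : Real.exp (-x) * (1 + x) ≤ 1 := by
    have h3 := Real.add_one_le_exp x
    have h4 : Real.exp (-x) * Real.exp x = 1 := by rw [← Real.exp_add]; simp
    have h5 := Real.exp_pos (-x)
    nlinarith
  have e3 : lam2 * y * (1 + x) ≤ x := by
    have : lam2 * (1 + x) ≤ lam1 := by
      have : x ≤ lam1 * δ := by rw [hx]; exact mul_le_mul_of_nonneg_left hyδ h1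
      nlinarith
    rw [hx]
    nlinarith
  have e4 : Real.exp (-x) ≤ 1 - lam2 * y := by
    have h6 : 0 < 1 + x := by linarith
    by_contra hcon
    rw [not_le] at hcon
    have : (1 - lam2 * y) * (1 + x) < Real.exp (-x) * (1 + x) := mul_lt_mul_of_pos_right hcon h6
    nlinarith
  linarith

theorem pow_le_exp' (a : ℝ) (ha : 0 ≤ a) (j : ℕ) : (1 + a) ^ j ≤ Real.exp (j * a) := by
  have h : 1 + a ≤ Real.exp a := by linarith [Real.add_one_le_exp a]
  calc (1 + a) ^ j ≤ Real.exp a ^ j := pow_le_pow_left₀ (by linarith) h j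
    _ = Real.exp (j * a) := by rw [← Real.exp_nat_mul]

/-- Bounds for the sums of the restricted connection probabilities. -/
theorem fi_bounds (hT : S_TAIL) (hFL : S_FLE) [Countable V] [DecidableEq V] (hp : ∀ n, 0 ≤ p n ∧ p n ≤ 1)
    {o : V} {Ar : ℝ} (hA : 0 ≤ Ar)
    (hrow : ∀ x, ∑' y, ENNReal.ofReal (pairVal G p s(x, y)) ≤ ENNReal.ofReal Ar)
    (hsum : ∀ x, Summable fun y => pairVal G p s(x, y))
    {Λ : Finset V} (ho : o ∈ Λ) {n : ℕ} {ur ε : ℝ} (hu : 0 ≤ ur) (hε : 0 ≤ ε)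
    (htail : ∑ j ∈ Finset.range n, ∑' y, wb (ENNReal.ofReal ur)
      (fun x y => ENNReal.ofReal (pairVal G p s(x, y))) o j y *
      ∑' z : {z : V // z ∉ Λ}, ENNReal.ofReal ur * ENNReal.ofReal (pairVal G p s(y, (z : V))) ≤
      ENNReal.ofReal ε)
    {pp : Sym2 Λ ⊕ Λ → ℝ} (hpp : ∀ i, 0 ≤ pp i ∧ pp i ≤ 1)
    (hle : ∀ x y : Λ, pp (Sum.inl s(x, y)) ≤ ur * pairVal G p s((x : V), (y : V)) ∨ x = y)
    (S : ℕ → Set Λ) {c2 : ℝ} (hc2 : 0 ≤ c2) (hc2u : c2 ≤ ur) :
    (∑ j ∈ Finset.range n, ∑ y, FI pp n S ⟨o, ho⟩ j y *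
      (c2 * ∑' z : {z : V // z ∉ Λ}, pairVal G p s((y : V), (z : V))) ≤ ε) ∧
    (∑ j ∈ Finset.range n, ∑ y, FI pp n S ⟨o, ho⟩ j y ≤ n * Real.exp (n * ur * Ar)) := by
  set K : V → V → ℝ≥0∞ := fun x y => ENNReal.ofReal (pairVal G p s(x, y)) with hK
  have hFI : ∀ j ≤ n, ∀ y : Λ, ENNReal.ofReal (FI pp n S ⟨o, ho⟩ j y) ≤
      wb (ENNReal.ofReal ur) K o j y := by
    refine hFL V K (ENNReal.ofReal ur) Λ ⟨o, ho⟩ n pp S hpp fun x y hxy => ?_
    rcases hle x y with h | h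
    · rw [hK, ← ENNReal.ofReal_mul hu]
      exact ENNReal.ofReal_le_ofReal h
    · exact absurd h hxy
  have hF0 : ∀ j y, 0 ≤ FI pp n S ⟨o, ho⟩ j y := fun j y => EP_nonneg _ _ hpp _
  have hpn : ∀ x z : V, 0 ≤ pairVal G p s(x, z) := fun x z => pairVal_nonneg (fun n => (hp n).1) _
  constructor
  · rw [← ENNReal.ofReal_le_ofReal_iff hε]
    refine le_trans ?_ htail
    have hnn : ∀ j y, 0 ≤ FI pp n S ⟨o, ho⟩ j y *
      (c2 * ∑' z : {z : V // z ∉ Λ}, pairVal G p s((y : V), (z : V))) := fun j y =>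
        mul_nonneg (hF0 j y) (mul_nonneg hc2 (tsum_nonneg fun z => hpn _ _))
    rw [ENNReal.ofReal_sum_of_nonneg fun j _ => Finset.sum_nonneg fun y _ => hnn j y]
    refine Finset.sum_le_sum fun j hj => ?_
    rw [ENNReal.ofReal_sum_of_nonneg fun y _ => hnn j y]
    have h1 : ∀ y : Λ, ENNReal.ofReal (FI pp n S ⟨o, ho⟩ j y *
      (c2 * ∑' z : {z : V // z ∉ Λ}, pairVal G p s((y : V), (z : V)))) ≤
        wb (ENNReal.ofReal ur) K o j y * ∑' z : {z : V // z ∉ Λ}, ENNReal.ofReal ur * K y z := by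
      intro y
      rw [ENNReal.ofReal_mul (hF0 j y)]
      refine mul_le_mul' (hFI j (Finset.mem_range.1 hj).le y) ?_
      rw [ENNReal.ofReal_mul hc2, ENNReal.tsum_mul_left]
      refine mul_le_mul' (ENNReal.ofReal_le_ofReal hc2u) ?_
      exact (ENNReal.ofReal_tsum_of_nonneg (fun z => hpn _ _)
        ((hsum (y : V)).subtype {z : V | z ∉ Λ})).le
    refine (Finset.sum_le_sum fun y _ => h1 y).trans ?_
    rw [Finset.sum_coe_sort Λ (fun y => wb (ENNReal.ofReal ur) K o j y *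
      ∑' z : {z : V // z ∉ Λ}, ENNReal.ofReal ur * K y z)]
    exact ENNReal.sum_le_tsum Λ
  · have hmass := (hT V K (ENNReal.ofReal Ar) o ENNReal.ofReal_ne_top hrow).1 (ENNReal.ofReal ur)
    have h2 : ∀ j ∈ Finset.range n, ∑ y, FI pp n S ⟨o, ho⟩ j y ≤ Real.exp (n * ur * Ar) := by
      intro j hj
      have hj' := (Finset.mem_range.1 hj).le
      have h3 : ENNReal.ofReal (∑ y, FI pp n S ⟨o, ho⟩ j y) ≤
          ENNReal.ofReal (Real.exp (n * ur * Ar)) := by
        rw [ENNReal.ofReal_sum_of_nonneg fun y _ => hF0 j y]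
        refine (Finset.sum_le_sum fun y _ => hFI j hj' y).trans ?_
        rw [Finset.sum_coe_sort Λ (fun y => wb (ENNReal.ofReal ur) K o j y)]
        refine (ENNReal.sum_le_tsum Λ).trans ((hmass j).trans ?_)
        rw [← ENNReal.ofReal_mul hu, ← ENNReal.ofReal_one, ← ENNReal.ofReal_add zero_le_one
          (mul_nonneg hu hA), ← ENNReal.ofReal_pow (by positivity)]
        refine ENNReal.ofReal_le_ofReal ((pow_le_exp' _ (mul_nonneg hu hA) j).trans ?_)
        refine Real.exp_le_exp.2 ?_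
        rw [mul_assoc]
        exact mul_le_mul_of_nonneg_right (by exact_mod_cast hj') (mul_nonneg hu hA)
      exact (ENNReal.ofReal_le_ofReal_iff (Real.exp_pos _).le).1 h3
    refine (Finset.sum_le_sum h2).trans ?_
    simp

end Pool.Agent.H958.LR
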