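import Pool.Agent.H958.LR.Fin2

/-! Project LR: choice of the finite region, of the window length and of the set `S` (2). -/

namespace Pool.Agent.H958.LR

open MeasureTheory ProbabilityTheory Set Filter
open scoped ENNReal NNReal Topology

variable {V : Type} {G : SimpleGraph V} {p v : ℕ → ℝ} {q : ℝ}

/-- the window lengths tend to zero -/
theorem tendsto_delta (a c : ℝ) : Tendsto (fun k : ℕ => a * (c * (1 / 2 : ℝ) ^ k)) atTop (𝓝 0) := by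
  have : Tendsto (fun k : ℕ => (1 / 2 : ℝ) ^ k) atTop (𝓝 0) :=
    tendsto_pow_atTop_nhds_zero_of_lt_one (by norm_num) (by norm_num)
  simpa using (this.const_mul c).const_mul a

theorem rho_gt {δ : ℝ} (h : δ < 1) : 1 / 3 < Real.exp (-δ) := by
  have h1 : Real.exp (-1) < Real.exp (-δ) := Real.exp_lt_exp.2 (by linarith)
  have h2 : Real.exp 1 < 3 := by
    have := Real.exp_one_lt_d9
    linarith
  have h3 : Real.exp (-1) * Real.exp 1 = 1 := by rw [← Real.exp_add]; simp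
  have h4 := Real.exp_pos (-1)
  nlinarith

theorem num2 {r ρ φ : ℝ} (hr : 0 ≤ r) (hr2 : r < 1 / 12) (hρ : 1 / 3 < ρ) (hφ : φ < 1 / 2) :
    (1 + r / ρ) * φ ≤ 5 / 8 := by
  have hρ0 : 0 < ρ := by linarith
  have : r / ρ ≤ 1 / 4 := by rw [div_le_iff₀ hρ0]; linarith
  have h2 : 0 ≤ r / ρ := div_nonneg hr hρ0.le
  nlinarith

theorem num3 {C1 δ r : ℝ} (hr : 0 ≤ r) (hr2 : r < 1 / 12) (hrC : r = C1 * δ) :
    (1 - Real.exp (-δ)) * r + r ^ 2 / (1 - r) ≤ (C1 + 2 * C1 ^ 2) * δ ^ 2 := by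
  have h1 : 1 - Real.exp (-δ) ≤ δ := by
    have := Real.add_one_le_exp (-δ)
    linarith
  have h2 : (1 - Real.exp (-δ)) * r ≤ δ * r := mul_le_mul_of_nonneg_right h1 hr
  have h3 : r ^ 2 / (1 - r) ≤ 2 * r ^ 2 := by
    rw [div_le_iff₀ (by linarith)]
    nlinarith [sq_nonneg r]
  calc (1 - Real.exp (-δ)) * r + r ^ 2 / (1 - r) ≤ δ * r + 2 * r ^ 2 := add_le_add h2 h3
    _ = (C1 + 2 * C1 ^ 2) * δ ^ 2 := by rw [hrC]; ring

theorem num4 {lam1 s0 s q c δ : ℝ} (h1 : 0 ≤ lam1) (hs : s ≤ s0) (hq : 0 ≤ q) (hc : 0 ≤ c)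
    (hδ : 0 ≤ δ) :
    1 - Real.exp (-(lam1 * Real.exp s * q * c * δ)) ≤ lam1 * Real.exp s0 * q * δ * c := by
  have hes : Real.exp s ≤ Real.exp s0 := Real.exp_le_exp.2 hs
  have e6 := Real.add_one_le_exp (-(lam1 * Real.exp s * q * c * δ))
  have e7 : lam1 * Real.exp s * q * c * δ ≤ lam1 * Real.exp s0 * q * c * δ := by
    gcongr
  have e8 : lam1 * Real.exp s0 * q * δ * c = lam1 * Real.exp s0 * q * c * δ := by ring
  rw [e8]
  linarith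

theorem num5 {lam1 lam2 s0 q δ : ℝ} (h2 : 0 ≤ lam2) (h21 : lam2 ≤ lam1) (hs : 0 ≤ s0) (hq : 0 ≤ q)
    (hδ : 0 ≤ δ) : lam2 * q * δ ≤ lam1 * Real.exp s0 * q * δ := by
  have : 1 ≤ Real.exp s0 := Real.one_le_exp hs
  have h1 : lam2 ≤ lam1 * Real.exp s0 := by nlinarith
  gcongr

theorem num6 {s δ : ℝ} (hs : 0 ≤ s) (hδ : 0 ≤ δ) :
    Real.exp (-δ) ≤ Real.exp (-(Real.exp (-s) * δ)) := by
  refine Real.exp_le_exp.2 (neg_le_neg ?_)
  have h1 : Real.exp (-s) ≤ 1 := Real.exp_le_one_iff.2 (by linarith)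
  nlinarith

theorem num7 {lam lam' : ℝ} (h0 : 0 ≤ lam) (hlt : lam < lam') : ∃ lam1 lam2 s0 : ℝ,
    lam < lam2 ∧ lam2 < lam1 ∧ 0 < s0 ∧ lam1 * Real.exp (2 * s0) = lam' := by
  have h1 : 0 < (lam + lam') / 2 := by linarith
  refine ⟨(lam + lam') / 2, (lam + (lam + lam') / 2) / 2,
    Real.log (lam' / ((lam + lam') / 2)) / 2, by linarith, by linarith, ?_, ?_⟩
  · have : 0 < Real.log (lam' / ((lam + lam') / 2)) :=
      Real.log_pos (by rw [lt_div_iff₀ h1]; linarith)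
    linarith
  · rw [show 2 * (Real.log (lam' / ((lam + lam') / 2)) / 2) =
      Real.log (lam' / ((lam + lam') / 2)) by ring, Real.exp_log (div_pos (by linarith) h1)]
    have h2 : lam + lam' ≠ 0 := by intro h; rw [h] at h1; norm_num at h1
    field_simp

theorem num8 {s0 : ℝ} (h : 0 < s0) : 0 < 1 - Real.exp (-(1 / 2 * s0)) := by
  have : Real.exp (-(1 / 2 * s0)) < 1 := Real.exp_lt_one_iff.2 (by linarith)
  linarith

theorem num9 {lam1 s0 lam' q δ a : ℝ} {n : ℕ} (hexp : lam1 * Real.exp (2 * s0) = lam')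
    (h : (n : ℝ) * δ = a * Real.exp s0) :
    (n : ℝ) * (lam1 * Real.exp s0 * q * δ) = a * lam' * q := by
  calc (n : ℝ) * (lam1 * Real.exp s0 * q * δ) = (n * δ) * (lam1 * Real.exp s0 * q) := by ring
    _ = a * (lam1 * (Real.exp s0 * Real.exp s0)) * q := by rw [h]; ring
    _ = a * lam' * q := by
      rw [← Real.exp_add, show s0 + s0 = 2 * s0 by ring, hexp]

theorem num10 (s0 : ℝ) (t0 k : ℕ) :
    ((t0 * 2 ^ k : ℕ) : ℝ) * (Real.exp s0 * (1 / 2 : ℝ) ^ k) = t0 * Real.exp s0 := by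
  push_cast
  have : (2 : ℝ) ^ k * (1 / 2) ^ k = 1 := by rw [← mul_pow]; norm_num
  calc (t0 : ℝ) * 2 ^ k * (Real.exp s0 * (1 / 2) ^ k) =
      t0 * Real.exp s0 * (2 ^ k * (1 / 2) ^ k) := by ring
    _ = _ := by rw [this, mul_one]

theorem limit_data (hC : S_DCT) (hS : S_STATIC) (hT : S_TAIL) (hFL : S_FLE) [Countable V]
    [DecidableEq V] (hD : Data G p v q) (o : V) {lam lam' : ℝ} (h0 : 0 ≤ lam) (hlt : lam < lam')
    {Ω : Type} [MeasurableSpace Ω] {P : Measure Ω} [IsProbabilityMeasure P]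
    {N : Sym2 V ⊕ V → Ω → Set ℝ} (hN : IsPoissonFamily P (staticRate G p lam' q) N)
    (hz : P {ω | StaticSurvives N o ω} = 0) :
    ∃ (Λ : Finset V) (ho : o ∈ Λ) (n : ℕ) (δ lam2 : ℝ) (pp : Sym2 Λ ⊕ Λ → ℝ)
      (S : ℕ → Set Λ), 0 < δ ∧ lam < lam2 ∧ (⟨o, ho⟩ : Λ) ∈ S 0 ∧ S n = ∅ ∧
      (∀ i, 0 ≤ pp i ∧ pp i ≤ 1) ∧
      (∀ e, lam2 * (q * pairVal G p (e.map Subtype.val) * δ) ≤ pp (Sum.inl e)) ∧
      (∀ e, pp (Sum.inl e) < 1) ∧ (∀ y, Real.exp (-δ) ≤ pp (Sum.inr y)) ∧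
      lam2 * q * δ * (∑' y, pairVal G p s(o, y)) < 1 ∧
      psi pp n S ⟨o, ho⟩ (Real.exp (-δ)) (lam2 * q * δ * (∑' y, pairVal G p s(o, y)))
        (fun y => lam2 * q * δ * ∑' z : {z : V // z ∉ Λ}, pairVal G p s((y : V), (z : V))) < 1 := by
  set Ar : ℝ := ∑' y, pairVal G p s(o, y) with hAr
  have hq := hD.q_pos
  have hq1 := hD.q_le
  have hpn : ∀ e : Sym2 V, 0 ≤ pairVal G p e := pairVal_nonneg (fun n => (hD.p_mem n).1)
  have hp1 : ∀ e : Sym2 V, pairVal G p e ≤ 1 := pairVal_le_one (fun n => (hD.p_mem n).2)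
  have hA0 : 0 ≤ Ar := tsum_nonneg fun y => hpn _
  have hrow : ∀ x, ∑' y, ENNReal.ofReal (pairVal G p s(x, y)) ≤ ENNReal.ofReal Ar := by
    intro x
    have := row_sum hD o x (c := 1) (d := 0) zero_le_one le_rfl
    simp only [one_mul, zero_mul, add_zero] at this
    exact this.le
  -- parameters
  obtain ⟨lam1, lam2, s0, hl2, hl21, hs0pos, hexp⟩ := num7 h0 hlt
  have hl20 : 0 < lam2 := lt_of_le_of_lt h0 hl2
  have hl10 : 0 < lam1 := hl20.trans hl21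
  have hκ0 := num8 hs0pos
  obtain ⟨t0, ht0⟩ := hS V G p lam' q o Ω P N hD.p_mem (h0.trans hlt.le) hq.le hN hz _ hκ0
  set K : V → V → ℝ≥0∞ := fun x y => ENNReal.ofReal (pairVal G p s(x, y)) with hK
  obtain ⟨Λ, ho, hΛ⟩ := (hT V K (ENNReal.ofReal Ar) o ENNReal.ofReal_ne_top hrow).2
    (ENNReal.ofReal (t0 * lam' * q)) (ENNReal.ofReal (1 / 16)) ENNReal.ofReal_ne_top (by simp)
  set C1 : ℝ := lam2 * q * Ar with hC1
  have hC10 : 0 ≤ C1 := by positivity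
  set E : ℝ := Real.exp (t0 * lam' * q * Ar) with hE
  have hE0 : 0 < E := Real.exp_pos _
  -- the eventual conditions
  have e0 := ht0 Λ ho
  have e1 : ∀ᶠ k : ℕ in atTop, lam2 * lam1 * (Real.exp s0 * (1 / 2 : ℝ) ^ k) < lam1 - lam2 :=
    (tendsto_delta (lam2 * lam1) (Real.exp s0)).eventually_lt_const (sub_pos.2 hl21)
  have e2 : ∀ᶠ k : ℕ in atTop, C1 * (Real.exp s0 * (1 / 2 : ℝ) ^ k) < 1 / 12 :=
    (tendsto_delta C1 (Real.exp s0)).eventually_lt_const (by norm_num)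
  have e3 : ∀ᶠ k : ℕ in atTop, 1 * (Real.exp s0 * (1 / 2 : ℝ) ^ k) < 1 :=
    (tendsto_delta 1 (Real.exp s0)).eventually_lt_const (by norm_num)
  have e4 : ∀ᶠ k : ℕ in atTop, ((C1 + 2 * C1 ^ 2) * (t0 * Real.exp s0) * E) *
      (Real.exp s0 * (1 / 2 : ℝ) ^ k) < 1 / 16 :=
    (tendsto_delta _ (Real.exp s0)).eventually_lt_const (by norm_num)
  obtain ⟨k, k0, k1, k2, k3, k4⟩ := (e0.and (e1.and (e2.and (e3.and e4)))).exists
  set δ : ℝ := Real.exp s0 * (1 / 2 : ℝ) ^ k with hδ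
  have hδ0 : 0 < δ := by positivity
  set n : ℕ := t0 * 2 ^ k with hn
  have hnδ : (n : ℝ) * δ = t0 * Real.exp s0 := num10 s0 t0 k
  set ur : ℝ := lam1 * Real.exp s0 * q * δ with hur
  have hur0 : 0 ≤ ur := by positivity
  have hnur : (n : ℝ) * ur = t0 * lam' * q := num9 hexp hnδ
  -- the set `S`
  have hex : ∃ s ∈ Icc 0 s0, ∃ S : ℕ → Set Λ, (⟨o, ho⟩ : Λ) ∈ S 0 ∧ S n = ∅ ∧
      phiS (ps G p lam1 q δ Λ s) n S ⟨o, ho⟩ < 1 / 2 := by
    by_contra hcon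
    push Not at hcon
    have h1 := hC Λ ⟨o, ho⟩ n (ps G p lam1 q δ Λ) (ps' G p lam1 q δ Λ) s0 (1 / 2) hs0pos.le
      (fun s _ i => ⟨(ps_mem hD.p_mem hl10.le hq.le hδ0.le Λ s i).1,
        (ps_mem hD.p_mem hl10.le hq.le hδ0.le Λ s i).2, ps_deriv Λ lam1 δ s i,
        ps_ineq lam1 δ Λ s i⟩) (fun s hs S h2 h3 => hcon s hs S h2 h3)
    rw [hδ, ps_eq_pStat, hexp] at h1
    exact absurd h1 (not_le.2 k0)
  obtain ⟨s, hs, S, hoS, hSn, hphi⟩ := hex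
  set pp := ps G p lam1 q δ Λ s with hpp
  have hppm : ∀ i, 0 ≤ pp i ∧ pp i ≤ 1 := ps_mem hD.p_mem hl10.le hq.le hδ0.le Λ s
  have hes : Real.exp s ≤ Real.exp s0 := Real.exp_le_exp.2 hs.2
  have hle : ∀ x y : Λ, pp (Sum.inl s(x, y)) ≤ ur * pairVal G p s((x : V), (y : V)) ∨ x = y := by
    intro x y
    left
    set c := pairVal G p s((x : V), (y : V)) with hc
    exact num4 hl10.le hs.2 hq.le (hpn _) hδ0.le
  have htail := hΛ n (ENNReal.ofReal ur) (by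
    rw [← ENNReal.ofReal_natCast, ← ENNReal.ofReal_mul (Nat.cast_nonneg n), hnur])
  have hc2u : lam2 * q * δ ≤ ur := num5 hl20.le hl21.le hs0pos.le hq.le hδ0.le
  obtain ⟨fb1, fb2⟩ := fi_bounds hT hFL hD.p_mem hA0 hrow (fun x => hD.sum_p x) ho hur0
    (by norm_num : (0 : ℝ) ≤ 1 / 16) htail hppm hle S (by positivity : 0 ≤ lam2 * q * δ) hc2u
  rw [hnur] at fb2
  set r : ℝ := lam2 * q * δ * Ar with hr
  have hrC : r = C1 * δ := by rw [hr, hC1]; ring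
  have hr0 : 0 ≤ r := by rw [hrC]; positivity
  have hr12 : r < 1 / 12 := by rw [hrC]; exact k2
  have hδ1 : δ < 1 := by rw [one_mul] at k3; exact k3
  set ρ : ℝ := Real.exp (-δ) with hρ
  have hρ0 : 0 < ρ := Real.exp_pos _
  have hρ3 : 1 / 3 < ρ := rho_gt hδ1
  have hρp : ∀ y, ρ ≤ pp (Sum.inr y) := fun y => num6 hs.1 hδ0.le
  refine ⟨Λ, ho, n, δ, lam2, pp, S, hδ0, hl2, hoS, hSn, hppm, ?_, ?_, hρp, hr12.trans (by norm_num), ?_⟩
  · intro e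
    refine num1 hl10.le hδ0.le hq.le hq1 (hpn _) (hp1 _) hs.1 hl20.le ?_
    have : lam2 * (1 + lam1 * δ) = lam2 + lam2 * lam1 * δ := by ring
    rw [this]
    exact (lt_sub_iff_add_lt'.1 k1).le
  · intro e
    exact sub_lt_self _ (Real.exp_pos _)
  · refine lt_of_le_of_lt (psi_le pp n S ⟨o, ho⟩ ρ r _ hppm hρ0 hρp hr0 (fun y => mul_nonneg
      (by positivity) (tsum_nonneg fun z => hpn _))) ?_
    have g1 : (1 + r / ρ) * phiS pp n S ⟨o, ho⟩ ≤ 5 / 8 := num2 hr0 hr12 hρ3 hphi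
    have g2 : (1 - ρ) * r + r ^ 2 / (1 - r) ≤ (C1 + 2 * C1 ^ 2) * δ ^ 2 := num3 hr0 hr12 hrC
    have g3 : 0 ≤ ∑ j ∈ Finset.range n, ∑ y, FI pp n S ⟨o, ho⟩ j y :=
      Finset.sum_nonneg fun j _ => Finset.sum_nonneg fun y _ => EP_nonneg _ _ hppm _
    have g4 : ((1 - ρ) * r + r ^ 2 / (1 - r)) *
        ∑ j ∈ Finset.range n, ∑ y, FI pp n S ⟨o, ho⟩ j y ≤ 1 / 16 := by
      calc ((1 - ρ) * r + r ^ 2 / (1 - r)) *
          ∑ j ∈ Finset.range n, ∑ y, FI pp n S ⟨o, ho⟩ j y ≤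
          ((C1 + 2 * C1 ^ 2) * δ ^ 2) * (n * E) := by
            refine mul_le_mul g2 fb2 g3 (by positivity)
        _ = ((C1 + 2 * C1 ^ 2) * (n * δ) * E) * δ := by ring
        _ = ((C1 + 2 * C1 ^ 2) * (t0 * Real.exp s0) * E) * δ := by rw [hnδ]
        _ ≤ 1 / 16 := k4.le
    exact lt_of_le_of_lt (add_le_add (add_le_add g1 fb1) g4) (by norm_num)

end Pool.Agent.H958.LR
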