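import Pool.Agent.H958.LR.Fin3

/-! Project LR: the assembly. -/

namespace Pool.Agent.H958.LR

open MeasureTheory ProbabilityTheory Set Filter
open scoped ENNReal NNReal Topology

variable {V : Type} {G : SimpleGraph V} {p v : ℕ → ℝ} {q : ℝ}

/-- the dominating kernel -/
noncomputable def aG (G : SimpleGraph V) (p v : ℕ → ℝ) (q lam lam2 δ gam : ℝ) (x y : V) : ℝ :=
  lam2 * q * δ * pairVal G p s(x, y) + 2 * lam / gam * pairVal G (fun n => (v n)⁻¹) s(x, y)

/-- the dominating parameters in the finite region -/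
noncomputable def pG (G : SimpleGraph V) (p v : ℕ → ℝ) (q lam lam2 δ : ℝ) {Λ : Finset V}
    (pp : Sym2 Λ ⊕ Λ → ℝ) (gam : ℝ) : Sym2 Λ ⊕ Λ → ℝ
  | Sum.inl e => max (pp (Sum.inl e)) (lam2 * q * δ * pairVal G p (e.map Subtype.val) +
      2 * lam / gam * pairVal G (fun n => (v n)⁻¹) (e.map Subtype.val))
  | Sum.inr x => pp (Sum.inr x)

theorem tendsto_aux (a b c : ℝ) :
    Tendsto (fun gam : ℝ => a + b / gam * c) atTop (𝓝 a) := by
  have h : Tendsto (fun gam : ℝ => b / gam) atTop (𝓝 0) := tendsto_const_nhds.div_atTop tendsto_id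
  simpa using (h.mul_const c).const_add a

theorem tendsto_pG (lam lam2 δ : ℝ) {Λ : Finset V}
    (pp : Sym2 Λ ⊕ Λ → ℝ)
    (h : ∀ e, lam2 * (q * pairVal G p (e.map Subtype.val) * δ) ≤ pp (Sum.inl e)) :
    Tendsto (pG G p v q lam lam2 δ pp) atTop (𝓝 pp) := by
  rw [tendsto_pi_nhds]
  intro i
  rcases i with e | x
  · simp only [pG]
    have h1 := tendsto_aux (lam2 * q * δ * pairVal G p (e.map Subtype.val)) (2 * lam)
      (pairVal G (fun n => (v n)⁻¹) (e.map Subtype.val))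
    have h2 := (tendsto_const_nhds (x := pp (Sum.inl e)) (f := (atTop : Filter ℝ))).max h1
    rw [max_eq_left (by rw [show lam2 * q * δ * pairVal G p (e.map Subtype.val) =
      lam2 * (q * pairVal G p (e.map Subtype.val) * δ) by ring]; exact h e)] at h2
    exact h2
  · simp only [pG]
    exact tendsto_const_nhds

theorem eventually_data (hL : S_LAW) [DecidableEq V] (o : V) {lam lam2 δ : ℝ}
    {Λ : Finset V} (ho : o ∈ Λ) {n : ℕ} {pp : Sym2 Λ ⊕ Λ → ℝ} {S : ℕ → Set Λ}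
    (hpp : ∀ i, 0 ≤ pp i ∧ pp i ≤ 1)
    (h1 : ∀ e, lam2 * (q * pairVal G p (e.map Subtype.val) * δ) ≤ pp (Sum.inl e))
    (h2 : ∀ e, pp (Sum.inl e) < 1)
    (h3 : lam2 * q * δ * (∑' y, pairVal G p s(o, y)) < 1)
    (h4 : psi pp n S ⟨o, ho⟩ (Real.exp (-δ)) (lam2 * q * δ * (∑' y, pairVal G p s(o, y)))
        (fun y => lam2 * q * δ * ∑' z : {z : V // z ∉ Λ}, pairVal G p s((y : V), (z : V))) < 1) :
    ∀ᶠ gam : ℝ in atTop,
      (∀ i, 0 ≤ pG G p v q lam lam2 δ pp gam i ∧ pG G p v q lam lam2 δ pp gam i ≤ 1) ∧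
      lam2 * q * δ * (∑' y, pairVal G p s(o, y)) +
        2 * lam / gam * (∑' y, pairVal G (fun n => (v n)⁻¹) s(o, y)) < 1 ∧
      psi (pG G p v q lam lam2 δ pp gam) n S ⟨o, ho⟩ (Real.exp (-δ))
        (lam2 * q * δ * (∑' y, pairVal G p s(o, y)) +
          2 * lam / gam * (∑' y, pairVal G (fun n => (v n)⁻¹) s(o, y)))
        (fun y => lam2 * q * δ * (∑' z : {z : V // z ∉ Λ}, pairVal G p s((y : V), (z : V))) +
          2 * lam / gam * (∑' z, pairVal G (fun n => (v n)⁻¹) s(o, z))) < 1 := by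
  have t1 := tendsto_pG (G := G) (p := p) (v := v) (q := q) lam lam2 δ pp h1
  have t2 := tendsto_aux (lam2 * q * δ * (∑' y, pairVal G p s(o, y))) (2 * lam)
    (∑' y, pairVal G (fun n => (v n)⁻¹) s(o, y))
  have t3 : Tendsto (fun gam : ℝ => fun y : Λ => lam2 * q * δ *
      (∑' z : {z : V // z ∉ Λ}, pairVal G p s((y : V), (z : V))) +
          2 * lam / gam * (∑' z, pairVal G (fun n => (v n)⁻¹) s(o, z))) atTop
      (𝓝 fun y : Λ => lam2 * q * δ *
        ∑' z : {z : V // z ∉ Λ}, pairVal G p s((y : V), (z : V))) := by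
    rw [tendsto_pi_nhds]
    intro y
    exact tendsto_aux _ _ _
  have t4 := psi_tendsto hL n S (⟨o, ho⟩ : Λ) (Real.exp (-δ)) t1 t2 t3 h3
  have u1 : ∀ᶠ gam : ℝ in atTop, ∀ i : Sym2 Λ,
      pG G p v q lam lam2 δ pp gam (Sum.inl i) < 1 := by
    rw [Filter.eventually_all]
    intro e
    exact ((tendsto_pi_nhds.1 t1 (Sum.inl e))).eventually_lt_const (h2 e)
  filter_upwards [u1, t2.eventually_lt_const h3, t4.eventually_lt_const h4] with gam w1 w2 w3
  refine ⟨fun i => ?_, w2, w3⟩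
  rcases i with e | x
  · exact ⟨(hpp _).1.trans (le_max_left _ _), (w1 e).le⟩
  · exact hpp _

theorem s_fin (hL : S_LAW) (hC : S_DCT) (hS : S_STATIC) (hT : S_TAIL) (hFL : S_FLE)
    (hP : S_PERC) (hY : S_DYN) : S_FIN := by
  classical
  intro V G p v q o hD lam lam' h0 hlt hst
  have : Countable V := countable_of_data o hD
  obtain ⟨Ω, mΩ, P, hPr, N, hN, hz⟩ := hst
  obtain ⟨Λ, ho, n, δ, lam2, pp, S, hδ, hl2, hoS, hSn, hpp, h1, h2, hρp, h3, h4⟩ :=
    limit_data hC hS hT hFL hD o h0 hlt hN hz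
  have hq := hD.q_pos
  have hl20 : 0 < lam2 := lt_of_le_of_lt h0 hl2
  have hpn : ∀ e : Sym2 V, 0 ≤ pairVal G p e := pairVal_nonneg (fun n => (hD.p_mem n).1)
  have hvn : ∀ e : Sym2 V, 0 ≤ pairVal G (fun n => (v n)⁻¹) e :=
    pairVal_nonneg (vinv_nonneg hD.v_pos)
  -- the parameter `κ`
  obtain ⟨κ, hκ0, hκ1, hκ⟩ : ∃ κ : ℝ, 0 < κ ∧ κ ≤ 1 ∧ lam * (1 + 2 * κ) ≤ lam2 := by
    refine ⟨min 1 ((lam2 - lam) / (2 * lam2)), lt_min one_pos (div_pos (sub_pos.2 hl2)
      (by positivity)), min_le_left _ _, ?_⟩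
    have h5 : min 1 ((lam2 - lam) / (2 * lam2)) ≤ (lam2 - lam) / (2 * lam2) := min_le_right _ _
    have h6 : (lam2 - lam) / (2 * lam2) * (2 * lam2) = lam2 - lam := by field_simp
    have h7 : 0 ≤ (lam2 - lam) / (2 * lam2) := div_nonneg (by linarith) (by linarith)
    have h8 : lam * (2 * min 1 ((lam2 - lam) / (2 * lam2))) ≤
        lam2 * (2 * ((lam2 - lam) / (2 * lam2))) := by
      refine mul_le_mul hl2.le (by linarith) (by positivity) hl20.le
    nlinarith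
  have hev := (eventually_data (v := v) (lam := lam) hL o ho hpp h1 h2 h3 h4).and
    (eventually_gt_atTop (0 : ℝ))
  obtain ⟨gam1, hg1⟩ := Filter.eventually_atTop.1 hev
  refine ⟨max gam1 1, lt_of_lt_of_le one_pos (le_max_right _ _), ?_⟩
  intro gam hgam l hl0 hl hDyn
  obtain ⟨⟨hpG, hrG, hpsi⟩, hgpos⟩ := hg1 gam ((le_max_left _ _).trans hgam)
  obtain ⟨Ω', mΩ', P', hPr', N', B0, hdyn, hne⟩ := hDyn
  apply hne
  obtain ⟨Z, hZm, hZi, hZp, hZr, hZt, hZn⟩ := hY V G p v lam l gam q δ κ Ω' P' N' B0 hD.p_mem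
    hD.v_pos hl0 hl hgpos hq hD.q_le hδ hκ0 hκ1 hdyn.poisson
  have hd : 0 ≤ 2 * lam / gam := by positivity
  have hc : 0 ≤ lam2 * q * δ := by positivity
  set a : V → V → ℝ := aG G p v q lam lam2 δ gam with ha
  have ha0 : ∀ x y, 0 ≤ a x y := fun x y =>
    add_nonneg (mul_nonneg hc (hpn _)) (mul_nonneg hd (hvn _))
  have hZa : ∀ x y, x ≠ y → ∀ j, P' {ω | Z (Sum.inl s(x, y), j) ω = true} ≤
      ENNReal.ofReal (a x y) := by
    intro x y hxy j
    refine (hZp s(x, y) j (by simpa using hxy)).trans (ENNReal.ofReal_le_ofReal ?_)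
    rw [div_pairVal hD.v_pos, ha, aG]
    refine add_le_add_left ?_ _
    have e1 : lam * δ * (q * pairVal G p s(x, y)) * (1 + 2 * κ) =
        (lam * (1 + 2 * κ)) * (q * δ * pairVal G p s(x, y)) := by ring
    have e2 : lam2 * q * δ * pairVal G p s(x, y) = lam2 * (q * δ * pairVal G p s(x, y)) := by ring
    rw [e1, e2]
    exact mul_le_mul_of_nonneg_right hκ (mul_nonneg (mul_nonneg hq.le hδ.le) (hpn _))
  choose g hg using fun x => hD.transitive o x
  set r : ℝ := lam2 * q * δ * (∑' y, pairVal G p s(o, y)) +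
        2 * lam / gam * (∑' y, pairVal G (fun n => (v n)⁻¹) s(o, y)) with hr
  have hr0 : 0 ≤ r := add_nonneg (mul_nonneg hc (tsum_nonneg fun y => hpn _))
    (mul_nonneg hd (tsum_nonneg fun y => hvn _))
  have hρ1 : Real.exp (-δ) ≤ 1 := Real.exp_le_one_iff.2 (by linarith)
  have key := hP V Ω' P' Z a r (Real.exp (-δ)) hZm hZi ha0 hZa hr0 hrG
    (fun x => (row_sum hD o x hc hd).le) (Real.exp_pos _).le hρ1 hZr Λ ⟨o, ho⟩ n S hoS hSn
    (fun x y => g x y) (fun x y z hyz => Subtype.ext ((g x).injective hyz)) (fun x => hg x)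
    (pG G p v q lam lam2 δ pp gam) hpG ?_ hρp
    (fun y => lam2 * q * δ * (∑' z : {z : V // z ∉ Λ}, pairVal G p s((y : V), (z : V))) +
          2 * lam / gam * (∑' z, pairVal G (fun n => (v n)⁻¹) s(o, z))) ?_ ?_ hpsi o
  · refine measure_mono_null ?_ key
    intro ω hω m
    obtain ⟨y, hy⟩ := hω (m * δ) (by positivity)
    refine ⟨y, ?_⟩
    exact s_det V _ _ o δ (fun i => Z i ω) hδ
      (fun e j t he h5 h6 h7 => hZt ω e j t he h5 h6 h7.1 h7.2)
      (fun x j h5 => hZn ω x j h5) m y hy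
  · intro x y z hyz
    rw [ha, aG, pairVal_iso (g x) hD.connected, pairVal_iso (g x) hD.connected]
    exact le_max_right _ _
  · intro y
    exact add_nonneg (mul_nonneg hc (tsum_nonneg fun z => hpn _))
      (mul_nonneg hd (tsum_nonneg fun z => hvn _))
  · intro x y
    exact out_sum hD o Λ (g x) y hc hd

end Pool.Agent.H958.LR
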