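import Pool.Agent.H958.LR.Main

/-! Project LR: the kernel, transitivity, summability. -/

namespace Pool.Agent.H958.LR

open MeasureTheory ProbabilityTheory Set Filter
open scoped ENNReal NNReal

variable {V : Type} {G : SimpleGraph V}

theorem pairVal_mk (f : ℕ → ℝ) (x y : V) :
    pairVal G f s(x, y) = open Classical in if x = y then 0 else f (G.dist x y) := by
  simp only [pairVal, Sym2.lift_mk]

theorem pairVal_self (f : ℕ → ℝ) (x : V) : pairVal G f s(x, x) = 0 := by
  simp [pairVal_mk]

theorem pairVal_ne (f : ℕ → ℝ) {x y : V} (h : x ≠ y) : pairVal G f s(x, y) = f (G.dist x y) := by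
  simp [pairVal_mk, h]

theorem pairVal_nonneg {f : ℕ → ℝ} (hf : ∀ n, 0 ≤ f n) (e : Sym2 V) : 0 ≤ pairVal G f e := by
  induction e with
  | h x y => rw [pairVal_mk]; split_ifs; exacts [le_rfl, hf _]

theorem pairVal_le_one {f : ℕ → ℝ} (hf : ∀ n, f n ≤ 1) (e : Sym2 V) : pairVal G f e ≤ 1 := by
  induction e with
  | h x y => rw [pairVal_mk]; split_ifs; exacts [zero_le_one, hf _]

/-- Automorphisms preserve the distance. -/
theorem iso_dist (g : G ≃g G) (hc : G.Connected) (x y : V) : G.dist (g x) (g y) = G.dist x y := by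
  have key : ∀ (g : G ≃g G) (x y : V), G.dist (g x) (g y) ≤ G.dist x y := by
    intro g x y
    obtain ⟨w, hw⟩ := hc.exists_walk_length_eq_dist x y
    have := SimpleGraph.dist_le (w.map g.toHom)
    simpa [hw] using this
  refine le_antisymm (key g x y) ?_
  have := key g.symm (g x) (g y)
  simpa using this

theorem pairVal_iso (g : G ≃g G) (hc : G.Connected) (f : ℕ → ℝ) (x y : V) :
    pairVal G f s(g x, g y) = pairVal G f s(x, y) := by
  by_cases h : x = y
  · subst h; simp [pairVal_self]
  · rw [pairVal_ne f h, pairVal_ne f (fun h' => h (g.injective h')), iso_dist g hc]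

theorem summable_pairVal_of {f : ℕ → ℝ} {x : V}
    (h : Summable fun y : {y : V // y ≠ x} => f (G.dist x y)) :
    Summable fun y => pairVal G f s(x, y) := by
  have h1 : Summable ((fun y => pairVal G f s(x, y)) ∘ ((↑) : {y : V // y ∈ {y : V | y ≠ x}} → V)) := by
    refine h.congr fun y => ?_
    simp only [Function.comp]
    rw [pairVal_ne f (Ne.symm y.2)]
  have h2 := summable_subtype_iff_indicator.1 h1
  refine h2.congr fun y => ?_
  by_cases hy : y = x
  · subst hy; simp [pairVal_self]
  · rw [indicator_of_mem (by simpa using hy)]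

theorem tsum_pairVal_eq (hc : G.Connected) (f : ℕ → ℝ) {x y : V} (g : G ≃g G) (hg : g x = y) :
    ∑' z, pairVal G f s(y, z) = ∑' z, pairVal G f s(x, z) := by
  rw [← (g.toEquiv).tsum_eq (fun z => pairVal G f s(y, z))]
  refine tsum_congr fun z => ?_
  subst hg
  exact pairVal_iso g hc f x z

variable {p v : ℕ → ℝ} {q : ℝ}

theorem Data.sum_p (hD : Data G p v q) (x : V) : Summable fun y => pairVal G p s(x, y) := by
  refine summable_pairVal_of ?_
  refine Summable.of_nonneg_of_le (fun y => (hD.p_mem _).1) (fun y => ?_)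
    (((hD.sum_vp x).add (hD.sum_v x)))
  have h0 := (hD.p_mem (G.dist x y)).1
  have h1 := (hD.p_mem (G.dist x y)).2
  have hv := hD.v_pos (G.dist x y)
  rcases le_total 1 (v (G.dist x y)) with h | h
  · have : 0 ≤ (v (G.dist x y))⁻¹ := (inv_pos.2 hv).le
    nlinarith
  · have : 1 ≤ (v (G.dist x y))⁻¹ := (one_le_inv₀ hv).2 h
    have : 0 ≤ v (G.dist x y) * p (G.dist x y) := mul_nonneg hv.le h0
    linarith

theorem Data.sum_vinv (hD : Data G p v q) (x : V) :
    Summable fun y => pairVal G (fun n => (v n)⁻¹) s(x, y) :=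
  summable_pairVal_of (hD.sum_v x)

theorem div_pairVal (hv : ∀ n, 0 < v n) (c gam : ℝ) (e : Sym2 V) :
    c / (gam * pairVal G v e) = c / gam * pairVal G (fun n => (v n)⁻¹) e := by
  induction e with
  | h x y =>
    by_cases h : x = y
    · subst h; simp [pairVal_self]
    · rw [pairVal_ne _ h, pairVal_ne _ h]
      have := (hv (G.dist x y)).ne'
      by_cases hg : gam = 0
      · simp [hg]
      · field_simp

end Pool.Agent.H958.LR
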