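import Pool.Agent.H958.LR.Stm

/-! Project LR: from [FIN] and [EXI] to the statement on the critical values. -/

namespace Pool.Agent.H958.LR

open MeasureTheory ProbabilityTheory Set Filter
open scoped ENNReal NNReal

theorem countable_of_data {V : Type} {G : SimpleGraph V} {p v : ℕ → ℝ} {q : ℝ} (o : V)
    (hD : Data G p v q) : Countable V := by
  have h := (hD.sum_v o).countable_support
  have h2 : Function.support (fun y : {y : V // y ≠ o} => (v (G.dist o y))⁻¹) = univ := by
    ext y
    simp only [Function.mem_support, ne_eq, inv_eq_zero, mem_univ, iff_true]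
    exact (hD.v_pos _).ne'
  rw [h2] at h
  have h3 : Countable {y : V // y ≠ o} := countable_univ_iff.1 h
  have h4 : ({y : V | y ≠ o} : Set V).Countable := h3
  have h5 : (univ : Set V).Countable := by
    have : (univ : Set V) = {y : V | y ≠ o} ∪ {o} := by
      ext y; by_cases hy : y = o <;> simp [hy]
    rw [this]
    exact h4.union (countable_singleton o)
  exact countable_univ_iff.1 h5

theorem main (hE : S_EXI) (hF : S_FIN) (V : Type) (G : SimpleGraph V) (p v : ℕ → ℝ) (q : ℝ)
    (o : V) (hD : Data G p v q) :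
    lamStatic G p q o ≤ liminf (fun gam : ℝ => lamDyn G p v gam q o) atTop := by
  have := countable_of_data o hD
  refine le_of_forall_lt fun c hc => ?_
  obtain ⟨c1, hc1, hc1'⟩ := exists_between hc
  obtain ⟨c2, hc2, hc2'⟩ := exists_between hc1'
  have hc1top : c1 ≠ ∞ := (hc2.trans_le le_top).ne
  have hc2top : c2 ≠ ∞ := (hc2'.trans_le le_top).ne
  set lam := c1.toReal
  set lam' := c2.toReal
  have h1 : ENNReal.ofReal lam = c1 := ENNReal.ofReal_toReal hc1top
  have h2 : ENNReal.ofReal lam' = c2 := ENNReal.ofReal_toReal hc2top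
  have hlt : lam < lam' := (ENNReal.toReal_lt_toReal hc1top hc2top).2 hc2
  have hrate : ∀ i, 0 ≤ staticRate G p lam' q i := by
    rintro (e | x)
    · refine mul_nonneg (mul_nonneg ENNReal.toReal_nonneg hD.q_pos.le) ?_
      induction e with
      | h x y =>
        simp only [pairVal, Sym2.lift_mk]
        split_ifs
        · exact le_rfl
        · exact (hD.p_mem _).1
    · exact zero_le_one
  obtain ⟨Ω, mΩ, P, hP, N, hN⟩ := hE (Sym2 V ⊕ V) (staticRate G p lam' q) hrate
  have hzero : P {ω | StaticSurvives N o ω} = 0 := by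
    by_contra hne
    have : lamStatic G p q o ≤ c2 := by
      refine sInf_le ⟨lam', ENNReal.toReal_nonneg, ⟨Ω, mΩ, P, hP, N, hN, hne⟩, h2.symm⟩
    exact absurd hc2' (not_lt.2 this)
  obtain ⟨gam0, hg0, hg⟩ := hF V G p v q o hD lam lam' ENNReal.toReal_nonneg hlt
    ⟨Ω, mΩ, P, hP, N, hN, hzero⟩
  have hev : ∀ᶠ gam : ℝ in atTop, c1 ≤ lamDyn G p v gam q o := by
    filter_upwards [eventually_ge_atTop gam0] with gam hgam
    refine le_sInf ?_
    rintro l ⟨l', hl'0, hl', rfl⟩
    rw [← h1]
    refine ENNReal.ofReal_le_ofReal ?_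
    by_contra hcon
    exact hg gam hgam l' hl'0 (not_le.1 hcon).le hl'
  exact hc1.trans_le (le_liminf_of_le (by isBoundedDefault) hev)

end Pool.Agent.H958.LR
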