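import Pool.Agent.H958.LR.Defs

/-!
# Project LR (MP_7adf6c_pr): statements of the pieces

Time is cut into windows of a small length.  In every window a pair `e` either transmits or not,
and a vertex either recovers or not; all these events are independent.

* `Win Λ`: a configuration; `ω (inl e, j) = true`: the pair `e` transmits in window `j`;
  `ω (inr x, j) = true`: the vertex `x` does NOT recover in window `j`.
* `Fwd`, `Inner`: reachability by one step per window, unrestricted / inside a set `S`.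
* `EP n p A`: probability of `A` when the coordinates of the windows `< n` are independent with
  `P(ω (i, j) = true) = p i`.
* `phiS`: the quantity `φ` of Duminil-Copin and Tassion for the set `S`.
* `WStep`, `ReachW`: reachability with arbitrarily many transmissions in one window.
-/

namespace Pool.Agent.H958.LR

open MeasureTheory ProbabilityTheory Set Filter
open scoped ENNReal NNReal Nat Topology

/-- Configurations of all windows. -/
abbrev Win (Λ : Type) := (Sym2 Λ ⊕ Λ) × ℕ → Bool

/-- One step in window `j`. -/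
def Step {Λ : Type} (ω : Win Λ) (j : ℕ) (x y : Λ) : Prop :=
  (x = y ∧ ω (Sum.inr x, j) = true) ∨ (x ≠ y ∧ ω (Sum.inl s(x, y), j) = true)

/-- `Fwd ω o j y`: `y` is reached from `o` by one step in each of the windows `0, …, j - 1`. -/
def Fwd {Λ : Type} (ω : Win Λ) (o : Λ) : ℕ → Λ → Prop
  | 0, y => y = o
  | j + 1, y => ∃ x, Fwd ω o j x ∧ Step ω j x y

/-- Restricted reachability inside `S` (`S j` is the part of `S` at height `j`): a step from `x` to
`y` in window `j` is allowed only if both `x` and `y` are in `S (j + 1)`. -/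
def Inner {Λ : Type} (ω : Win Λ) (S : ℕ → Set Λ) (o : Λ) : ℕ → Λ → Prop
  | 0, y => y = o ∧ o ∈ S 0
  | j + 1, y => y ∈ S (j + 1) ∧ ∃ x, Inner ω S o j x ∧ x ∈ S (j + 1) ∧ Step ω j x y

/-- Increasing properties. -/
def Incr {Λ : Type} (A : Win Λ → Prop) : Prop :=
  ∀ ω ω' : Win Λ, (∀ i, ω i = true → ω' i = true) → A ω → A ω'

section Finite

variable {Λ : Type}

/-- Extension of a configuration of the windows `< n` by `false`. -/
def ext (n : ℕ) (η : (Sym2 Λ ⊕ Λ) × Fin n → Bool) : Win Λ := fun i =>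
  if h : i.2 < n then η (i.1, ⟨i.2, h⟩) else false

variable [Fintype Λ] [DecidableEq Λ]

open Classical in
/-- Probability of `A` if `ω (i, j)`, `j < n`, are independent, `true` with probability `p i`. -/
noncomputable def EP (n : ℕ) (p : Sym2 Λ ⊕ Λ → ℝ) (A : Win Λ → Prop) : ℝ :=
  ∑ η : (Sym2 Λ ⊕ Λ) × Fin n → Bool,
    (∏ i, if η i = true then p i.1 else 1 - p i.1) * (if A (ext n η) then 1 else 0)

/-- Probability to survive `n` windows. -/
noncomputable def thetaF (p : Sym2 Λ ⊕ Λ → ℝ) (n : ℕ) (o : Λ) : ℝ :=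
  EP n p fun ω => ∃ y, Fwd ω o n y

/-- Probability of the restricted connection. -/
noncomputable def FI (p : Sym2 Λ ⊕ Λ → ℝ) (n : ℕ) (S : ℕ → Set Λ) (o : Λ) (j : ℕ) (y : Λ) : ℝ :=
  EP n p fun ω => Inner ω S o j y

open Classical in
/-- Exit weight of `(y, j)`: if `y` is in `S (j + 1)`, the sum of the probabilities of the
transmissions out of `S`; otherwise the probability of the time edge. -/
noncomputable def exitW (p : Sym2 Λ ⊕ Λ → ℝ) (S : ℕ → Set Λ) (j : ℕ) (y : Λ) : ℝ :=
  if y ∈ S (j + 1) then ∑ z, (if z ∈ S (j + 1) then 0 else p (Sum.inl s(y, z))) else p (Sum.inr y)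

/-- The quantity `φ(S)`. -/
noncomputable def phiS (p : Sym2 Λ ⊕ Λ → ℝ) (n : ℕ) (S : ℕ → Set Λ) (o : Λ) : ℝ :=
  ∑ j ∈ Finset.range n, ∑ y, FI p n S o j y * exitW p S j y

open Classical in
/-- The quantity `ψ(S)` (a variant of `φ(S)` for the true process): `ρ` is the probability of no
recovery, `r` a bound for the mean number of transmissions out of a vertex in a window, `out y` a
bound for the mean number of transmissions from `y` out of the finite region. -/
noncomputable def psi (p : Sym2 Λ ⊕ Λ → ℝ) (n : ℕ) (S : ℕ → Set Λ) (o : Λ) (ρ r : ℝ)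
    (out : Λ → ℝ) : ℝ :=
  ∑ j ∈ Finset.range n, ∑ y, FI p n S o j y *
    ((if y ∈ S (j + 1) then (∑ z, (if z ∈ S (j + 1) then 0 else p (Sum.inl s(y, z)))) + out y
      else ρ + r) + ((1 - ρ) * r + r ^ 2 / (1 - r)))

end Finite

/-- One window of the upper process: `y` is reached from `x` within window `j` if either `y = x` and
`x` does not recover, or there is a chain of one or more transmissions in the window from `x` to
`y` (a closed chain is allowed). -/
def WStep {V : Type} (ω : Win V) (j : ℕ) (x y : V) : Prop :=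
  (x = y ∧ ω (Sum.inr x, j) = true) ∨
    Relation.TransGen (fun a b => a ≠ b ∧ ω (Sum.inl s(a, b), j) = true) x y

/-- Reachability through the windows `j, …, j + m - 1`. -/
def ReachW {V : Type} (ω : Win V) : ℕ → ℕ → V → V → Prop
  | _, 0, x, y => x = y
  | j, m + 1, x, y => ∃ z, WStep ω j x z ∧ ReachW ω (j + 1) m z y

/-- `wb u K o j y = ((1 + u K)^j) (o, y)`. -/
noncomputable def wb {V : Type} (u : ℝ≥0∞) (K : V → V → ℝ≥0∞) (o : V) : ℕ → V → ℝ≥0∞
  | 0, y => open Classical in if y = o then 1 else 0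
  | j + 1, y => wb u K o j y + ∑' x, wb u K o j x * (u * K x y)

/-- The parameters of the static process in windows of length `2 ^ (-k)`. -/
noncomputable def pStat {V : Type} (G : SimpleGraph V) (p : ℕ → ℝ) (lam q : ℝ) (Λ : Finset V)
    (k : ℕ) : Sym2 Λ ⊕ Λ → ℝ
  | Sum.inl e => 1 - Real.exp (-(lam * q * pairVal G p (e.map Subtype.val) * (1 / 2) ^ k))
  | Sum.inr _ => Real.exp (-(1 / 2) ^ k)

/-! ## Statements -/

/-- **[LAW]** Law of finitely many independent Bernoulli variables; monotone version; monotonicity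
and continuity of `EP` in the parameters.

Proof. (1) `{A (ext n Y)}` is the disjoint union over `η` with `A (ext n η)` of
`{∀ i, Y i = η i}`, whose probability is `∏ P(Y i = η i)` by `iIndepFun.meas_iInter`.
(3) is the monotonicity of finite product measures of increasing events: change the parameters of
one index `i` after the other; for fixed other coordinates the function
`t ↦ t * f(1) + (1 - t) * f(0)` is nondecreasing if `f(0) ≤ f(1)` (it is convenient to prove it
for general weights `P : (index) → ℝ` depending on the full index, by induction on a Finset of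
indices, or by `Fintype` induction). (2) from (1)/(3) with index dependent weights: the law of `Y`
is the product with weights `P(Y i = true) ≤ p i.1`. (4) a finite sum of finite products. -/
def S_LAW : Prop :=
  (∀ (Λ : Type) [Fintype Λ] [DecidableEq Λ] (n : ℕ) (Ω : Type) [MeasurableSpace Ω] (P : Measure Ω)
    [IsProbabilityMeasure P] (Y : (Sym2 Λ ⊕ Λ) × Fin n → Ω → Bool) (p : Sym2 Λ ⊕ Λ → ℝ),
    (∀ i, Measurable (Y i)) → iIndepFun Y P → (∀ i, 0 ≤ p i ∧ p i ≤ 1) →
    (∀ i, P {ω | Y i ω = true} = ENNReal.ofReal (p i.1)) →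
    ∀ A : Win Λ → Prop,
      P {ω | A (ext n fun i => Y i ω)} = ENNReal.ofReal (EP n p A)) ∧
  (∀ (Λ : Type) [Fintype Λ] [DecidableEq Λ] (n : ℕ) (Ω : Type) [MeasurableSpace Ω] (P : Measure Ω)
    [IsProbabilityMeasure P] (Y : (Sym2 Λ ⊕ Λ) × Fin n → Ω → Bool) (p : Sym2 Λ ⊕ Λ → ℝ),
    (∀ i, Measurable (Y i)) → iIndepFun Y P → (∀ i, 0 ≤ p i ∧ p i ≤ 1) →
    (∀ i, P {ω | Y i ω = true} ≤ ENNReal.ofReal (p i.1)) →
    ∀ A : Win Λ → Prop, Incr A →
      P {ω | A (ext n fun i => Y i ω)} ≤ ENNReal.ofReal (EP n p A)) ∧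
  (∀ (Λ : Type) [Fintype Λ] [DecidableEq Λ] (n : ℕ) (p p' : Sym2 Λ ⊕ Λ → ℝ),
    (∀ i, 0 ≤ p i ∧ p i ≤ p' i ∧ p' i ≤ 1) → ∀ A : Win Λ → Prop, Incr A →
      EP n p A ≤ EP n p' A) ∧
  (∀ (Λ : Type) [Fintype Λ] [DecidableEq Λ] (n : ℕ) (A : Win Λ → Prop),
    Continuous fun p : Sym2 Λ ⊕ Λ → ℝ => EP n p A)

/-- **[DCT]** The differential inequality of Duminil-Copin and Tassion for one step per window with
undirected transmissions, in integrated form: along a family of parameters with
`p' ≥ p (1 - p)` (derivative in `s`), if `φ_s(S) ≥ c` for all `s ∈ [0, s0]` and all `S` with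
`o ∈ S 0`, `S n = ∅`, then the probability to survive `n` windows at `s0` is at least
`1 - exp (- c s0)`.

Proof. Write `P_s` for `EP n (p s)`, `θ(s) = thetaF (p s) n o`.
(a) Russo: `θ'(s) = ∑_{(i,j)} p'_i(s) P_s((i,j) pivotal)`, where `(i, j)` is pivotal if survival
holds with `ω (i,j) = true` and not with `false` (survival is increasing). Hence
`θ'(s) ≥ ∑ p_i (1 - p_i) P_s((i,j) pivotal) = ∑ p_i P_s(ω (i,j) = false, (i,j) pivotal)`.
(b) Backward sets: `B_n = univ`, `x ∈ B_j` iff some `y ∈ B_{j+1}` with `Step ω j x y`; `T_j` is the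
complement of `B_j`. Survival means `o ∈ B_0`; and `Fwd ω o j x ∧ x ∈ B_j` implies survival.
(c) For `S : Fin (n+1) → Set Λ` (finitely many; `S n = ∅`, extended by `∅`) let `{T = S}` be the
event `T_j = S_j` for all `j ≤ n`. It depends only on the coordinates `(inr x, j)` with
`x ∉ S (j+1)` and `(inl s(x,y), j)` with `x ∉ S (j+1)` or `y ∉ S (j+1)` (backward induction: if
`T_{j+1} = S_{j+1}` then membership in `T_j` is read off the steps with target outside `S (j+1)`),
while `Inner ω S o j x` depends only on the coordinates `(inr x, i)` with `x ∈ S (i+1)` and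
`(inl s(x,y), i)` with `x, y ∈ S (i+1)`. So these events are independent:
`P_s(T = S, Inner j x) = P_s(T = S) FI (p s) n S o j x`.
(d) Let `T = S`, `Inner ω S o j x`, and consider an exit from `(x, j)`: either `x ∉ S (j+1)` and the
coordinate is `(inr x, j)`, or `x ∈ S (j+1)`, `z ∉ S (j+1)` and the coordinate is
`(inl s(x,z), j)`. Then this coordinate is `false` (otherwise `x ∈ B_j`, but `Inner` implies
`x ∈ S_j = T_j`) and, if `o ∈ S 0`, pivotal (`Inner` implies `Fwd`; with the coordinate `true`,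
`x ∈ B_j`, since `B_{j+1}` only increases). For fixed `S` different exits `(x, j, z)` have
different coordinates (for `inl s(x,z)` the orientation is determined by `x ∈ S (j+1)`,
`z ∉ S (j+1)`). Hence for every `S` with `o ∈ S 0`
`∑_{(i,j)} p_i P_s(T = S, ω (i,j) = false, (i,j) pivotal) ≥ P_s(T = S) φ_s(S) ≥ c P_s(T = S)`.
(e) Sum over `S` with `o ∈ S 0`: `θ'(s) ≥ c (1 - θ(s))`, so `(1 - θ(s)) exp (c s)` is nonincreasing
on `[0, s0]` and `1 - θ(s0) ≤ exp (- c s0)`. -/
def S_DCT : Prop :=
  ∀ (Λ : Type) [Fintype Λ] [DecidableEq Λ] (o : Λ) (n : ℕ) (p p' : ℝ → Sym2 Λ ⊕ Λ → ℝ)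
    (s0 c : ℝ), 0 ≤ s0 →
    (∀ s ∈ Icc 0 s0, ∀ i, 0 ≤ p s i ∧ p s i ≤ 1 ∧ HasDerivAt (fun s => p s i) (p' s i) s ∧
      p s i * (1 - p s i) ≤ p' s i) →
    (∀ s ∈ Icc 0 s0, ∀ S : ℕ → Set Λ, o ∈ S 0 → S n = ∅ → c ≤ phiS (p s) n S o) →
    1 - Real.exp (-(c * s0)) ≤ thetaF (p s0) n o

/-- **[STATIC]** If the static process dies out almost surely (in one graphical representation),
then there is a time `t0` such that in every finite region, for all fine windows, the probability
to survive `t0 * 2 ^ k` windows of length `2 ^ (-k)` is smaller than `κ`.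

Proof. Given `κ > 0`. For `k t : ℕ` and a finite `Λ ∋ o` let `ω^k (inl e, j) = true` iff `N (inl e)`
has a point in the window `(j 2^{-k}, (j+1) 2^{-k}]`, `ω^k (inr x, j) = true` iff `N (inr x)` has
no point in the window. Let `Bad(k,t,Λ)` be the event that in some window `j < t 2^k` there are at
least two points in total among the labels `inl e`, `inr x` of `Λ` (two labels with a point, or
one label with `encard ≥ 2`), and `Good(k,t,Λ)` the event that there is no bad window and
`∃ y, Fwd ω^k o (t 2^k) y` (in `Λ`). These are measurable events, since they only depend on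
countably many numbers `encard (N i ω ∩ Ioc ..)`.
(a) On `Good(k,t,Λ)` there is `y` with `Infected o y t` (a step `x → x` without recovery: `stay`; a
step `x → y` with a transmission mark at `u` in the window: this is the only mark of the window, so
`stay` until `u`, `cross`, `stay`).
(b) `Good(k,t+1,Λ) ⊆ Good(k,t,Λ)`. Let `E_t = ⋃_Λ limsup_k Good(k,t,Λ)` (countable union over the
finite sets `Λ ∋ o`). Then `E_{t+1} ⊆ E_t ⊆ {∃ y, Infected o y t}` and `⋂_t E_t ⊆ StaticSurvives`
(if some vertex is infected at time `t`, then at every earlier time some vertex is infected). So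
`P(E_t) → 0`; choose `t0` with `P(E_{t0}) < κ`. Then for every `Λ`
`limsup_k P(Good(k,t0,Λ)) ≤ P(limsup_k Good(k,t0,Λ)) ≤ P(E_{t0}) < κ` (reverse Fatou for sets).
(c) `P(Bad(k,t0,Λ)) ≤ t0 2^k (R 2^{-k})^2 → 0`, `R` the total rate of the labels of `Λ` (for two
labels: `P(≥1) P(≥1) ≤ (r 2^{-k}) (r' 2^{-k})`; for one label `P(≥2) ≤ (r 2^{-k})^2`).
(d) By [LAW] `thetaF (pStat ..) (t0 2^k) o = P(∃ y, Fwd ω^k o (t0 2^k) y) ≤ P(Good) + P(Bad)`. -/
def S_STATIC : Prop :=
  ∀ (V : Type) [Countable V] [DecidableEq V] (G : SimpleGraph V) (p : ℕ → ℝ) (lam q : ℝ) (o : V)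
    (Ω : Type) [MeasurableSpace Ω] (P : Measure Ω) [IsProbabilityMeasure P]
    (N : Sym2 V ⊕ V → Ω → Set ℝ),
    (∀ n, 0 ≤ p n ∧ p n ≤ 1) → 0 ≤ lam → 0 ≤ q →
    IsPoissonFamily P (staticRate G p lam q) N → P {ω | StaticSurvives N o ω} = 0 →
    ∀ κ : ℝ, 0 < κ → ∃ t0 : ℕ, ∀ (Λ : Finset V) (ho : o ∈ Λ),
      ∀ᶠ k : ℕ in atTop, thetaF (pStat G p lam q Λ k) (t0 * 2 ^ k) ⟨o, ho⟩ < κ

/-- **[TAIL]** Walk bounds. `K` is a kernel with row sums at most `A < ∞`.
(1) `∑_y wb u K o j y ≤ (1 + u A)^j`.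
(2) For every `c < ∞` and `ε > 0` there is a finite set `Λ ∋ o` such that, uniformly in `n` and `u`
with `n u ≤ c`, the expected number of exits from `Λ` is at most `ε`.

Proof. (1) induction. (2) With `K^i` the powers of `K` (`K^0 = 1`, `K^{i+1}(o,y) = ∑ K^i(o,x) K(x,y)`)
one has `wb u K o j y = ∑_i C(j,i) u^i K^i(o,y) ≤ ∑_i (j u)^i / i! K^i(o,y) ≤ g y`,
`g y := ∑_i c^i / i! K^i(o,y)` for `j ≤ n` (to avoid binomials: show by induction on `j` that
`wb u K o j y ≤ ∑_i (j u)^i / i! K^i(o,y)`, using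
`(j u)^{i+1}/(i+1)! + u (j u)^i / i! ≤ ((j+1) u)^{i+1}/(i+1)!`). `∑_y g y ≤ exp (c A) < ∞`, hence
`h z := ∑_y g y K(y,z)` has a finite sum, and there is a finite `Λ ∋ o` with
`c ∑_{z ∉ Λ} h z ≤ ε` (`ENNReal.tendsto_tsum_compl_atTop_zero`). The left side is at most
`n u ∑_{z ∉ Λ} h z`. -/
def S_TAIL : Prop :=
  ∀ (V : Type) [Countable V] (K : V → V → ℝ≥0∞) (A : ℝ≥0∞) (o : V), A ≠ ∞ →
    (∀ x, ∑' y, K x y ≤ A) →
    (∀ (u : ℝ≥0∞) (j : ℕ), ∑' y, wb u K o j y ≤ (1 + u * A) ^ j) ∧
    ∀ c ε : ℝ≥0∞, c ≠ ∞ → ε ≠ 0 → ∃ Λ : Finset V, o ∈ Λ ∧ ∀ (n : ℕ) (u : ℝ≥0∞), n * u ≤ c →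
      ∑ j ∈ Finset.range n, ∑' y, wb u K o j y * ∑' z : {z : V // z ∉ Λ}, u * K y z ≤ ε

/-- **[FLE]** The restricted connection probabilities are bounded by the walk bounds.

Proof. Induction on `j ≤ n` (for `j = 0` clear). `Inner (j+1) y` implies `Inner j y` or, for some
`x ≠ y`, `Inner j x` and `ω (inl s(x,y), j) = true`; the latter two events depend on disjoint
coordinates (windows `< j` and window `j`), so
`FI (j+1) y ≤ FI j y + ∑_x FI j x p (inl s(x,y))`. The product formula can be taken from [LAW] (1)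
(realise the weights as a probability measure) or from the factorisation of finite sums. -/
def S_FLE : Prop :=
  ∀ (V : Type) [DecidableEq V] (K : V → V → ℝ≥0∞) (u : ℝ≥0∞) (Λ : Finset V) (o : Λ) (n : ℕ)
    (p : Sym2 Λ ⊕ Λ → ℝ) (S : ℕ → Set Λ), (∀ i, 0 ≤ p i ∧ p i ≤ 1) →
    (∀ x y : Λ, x ≠ y → ENNReal.ofReal (p (Sum.inl s(x, y))) ≤ u * K x y) →
    ∀ j ≤ n, ∀ y : Λ, ENNReal.ofReal (FI p n S o j y) ≤ wb u K (o : V) j y

/-- **[SAW]** Chains of transmissions within one window (`X e ω`: the pair `e` transmits).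
(1) The expected number of `y ≠ x` that can be reached from `x` by a chain of transmissions but are
not directly joined to `x` is at most `r ^ 2 / (1 - r)`.
(2) The probability that some transmission touches `x` is at most `r`.

Proof. (2) union bound. (1) If `TransGen` holds between `x ≠ y`, there is a self-avoiding path
`x = v_0, v_1, …, v_k = y` of transmitting pairs (for instance by `SimpleGraph.Reachable` and
`Walk.toPath` in the random graph); since `s(x,y)` does not transmit, `k ≥ 2`. The pairs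
`s(v_{i-1}, v_i)` of a self-avoiding path are different, so by independence the probability that
they all transmit is at most `∏ a v_{i-1} v_i`. The sum over all sequences `(v_1, …, v_k)` of these
products is at most `r^k` (induction on `k`), and `∑_{k ≥ 2} r^k = r^2 / (1 - r)`. -/
def S_SAW : Prop :=
  ∀ (V : Type) [Countable V] (Ω : Type) [MeasurableSpace Ω] (P : Measure Ω)
    [IsProbabilityMeasure P] (X : Sym2 V → Ω → Bool) (a : V → V → ℝ) (r : ℝ),
    (∀ e, Measurable (X e)) → iIndepFun X P → (∀ x y, 0 ≤ a x y) →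
    (∀ x y, x ≠ y → P {ω | X s(x, y) ω = true} ≤ ENNReal.ofReal (a x y)) →
    0 ≤ r → r < 1 → (∀ x, ∑' y, ENNReal.ofReal (a x y) ≤ ENNReal.ofReal r) →
    (∀ x, ∑' y, P {ω | x ≠ y ∧ Relation.TransGen (fun a b => a ≠ b ∧ X s(a, b) ω = true) x y ∧
        X s(x, y) ω = false} ≤ ENNReal.ofReal (r ^ 2 / (1 - r))) ∧
    (∀ x, P {ω | ∃ y, x ≠ y ∧ X s(x, y) ω = true} ≤ ENNReal.ofReal r)

/-- **[PERC]** The abstract criterion for extinction. `Z` is an independent family, `a x y` bounds
the probability that `s(x,y)` transmits, `ρ` is the probability of no recovery. The finite region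
`Λ` with the set `S` (`o ∈ S 0`, `S n = ∅`) is placed at every vertex `x` of `V` by an injection
`ι x` with `ι x o = x`. If `ψ < 1` then the process dies out from every vertex.

Proof. For `x ∈ V`, `j0 m : ℕ` let `M(j0,m,x) = ∑_y P(ReachW j0 m x y)` and
`M_m = sup_{j0,x} M(j0,m,x)`.
(a) Independence of windows: the events `WStep j ..` are measurable with respect to the coordinates
of window `j` (`TransGen` over a countable set is a countable union of finite intersections),
`ReachW j m ..` with respect to the windows `j, …, j+m-1`; events of disjoint sets of windows are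
independent (`indep_iSup_of_disjoint`).
(b) By [SAW], `∑_y P(WStep j x y) ≤ ρ + r + r + r^2/(1-r) =: g < ∞` (`y = x`: no recovery, or a closed
chain, which implies that some transmission touches `x`; `y ≠ x`: directly joined, total at most
`r`, or not directly joined). Hence `M_{m+1} ≤ g M_m`, `M_m ≤ g^m`.
(c) Fix `x`, `j0` and put, for `ω`, `ω' (i, j) = ` the configuration on `Λ` obtained through `ι x` from
the windows `j0 + j`. For `y ∈ Λ`, `j < n`, `z ∈ V` call the step from `ι x y` to `z` in window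
`j0 + j` allowed if `z = ι x y'` with `y' ∈ S (j+1)`, `y ∈ S (j+1)` and `Step ω' j y y'`. Following a
chain `x = z_0, z_1, …, z_m` of `ReachW j0 m x z_m` with `m ≥ n`: as long as all steps are allowed,
`z_j = ι x y_j` with `Inner ω' S o j y_j`; since `S n = ∅` some step `j < n` is not allowed. Hence
`P(ReachW j0 m x z') ≤ ∑_{j<n} ∑_{y ∈ Λ} ∑_z P(Inner ω' S o j y) P(WStep (j0+j) (ι x y) z, not allowed)
P(ReachW (j0+j+1) (m-j-1) z z')` (independence of windows), so
`M_m ≤ ∑_{j<n} ∑_y F(j,y) W(j,y) M_{m-j-1}` with `F(j,y) = P(Inner ω' S o j y)` and `W(j,y)` the sum over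
`z` of the probability of a step which is not allowed.
(d) `F(j,y) ≤ FI p n S o j y` by [LAW] (2) (`Inner` is increasing and depends on the windows `< n`).
(e) `W(j,y) ≤ (if y ∈ S (j+1) then (∑_{z ∉ S (j+1)} p (inl s(y,z))) + out y else ρ + r) +
((1-ρ) r + r^2/(1-r))`: write `x' = ι x y`. `z = x'`: if `y ∈ S (j+1)` and there is no recovery the step
is allowed; otherwise a recovery and a closed chain: `(1-ρ) r` (independence of `inr` and `inl`
coordinates, [SAW] (2)); if `y ∉ S (j+1)`: at most `ρ + (1-ρ) r`. `z ≠ x'`, not directly joined: total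
at most `r^2/(1-r)` by [SAW] (1). `z ≠ x'` directly joined and not allowed: if `y ∉ S (j+1)` total at
most `r`; if `y ∈ S (j+1)`: `z = ι x z'` with `z' ∉ S (j+1)`, or `z` not in the range of `ι x`.
(f) So `M_m ≤ ψ max_{m-n ≤ m' < m} M_{m'}` for `m ≥ n`, which gives `M_m → 0`, and
`P(∀ m, ∃ y, ReachW 0 m x y) ≤ M_m` for all `m`. (Note `n ≥ 1` because `o ∈ S 0`, `S n = ∅`.) -/
def S_PERC : Prop :=
  ∀ (V : Type) [Countable V] (Ω : Type) [MeasurableSpace Ω] (P : Measure Ω)
    [IsProbabilityMeasure P] (Z : (Sym2 V ⊕ V) × ℕ → Ω → Bool) (a : V → V → ℝ) (r ρ : ℝ),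
    (∀ i, Measurable (Z i)) → iIndepFun Z P → (∀ x y, 0 ≤ a x y) →
    (∀ x y, x ≠ y → ∀ j, P {ω | Z (Sum.inl s(x, y), j) ω = true} ≤ ENNReal.ofReal (a x y)) →
    0 ≤ r → r < 1 → (∀ x, ∑' y, ENNReal.ofReal (a x y) ≤ ENNReal.ofReal r) →
    0 ≤ ρ → ρ ≤ 1 → (∀ x j, P {ω | Z (Sum.inr x, j) ω = true} = ENNReal.ofReal ρ) →
    ∀ (Λ : Type) [Fintype Λ] [DecidableEq Λ] (o : Λ) (n : ℕ) (S : ℕ → Set Λ), o ∈ S 0 → S n = ∅ →
    ∀ ι : V → Λ → V, (∀ x, Function.Injective (ι x)) → (∀ x, ι x o = x) →
    ∀ p : Sym2 Λ ⊕ Λ → ℝ, (∀ i, 0 ≤ p i ∧ p i ≤ 1) →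
    (∀ x y z, y ≠ z → a (ι x y) (ι x z) ≤ p (Sum.inl s(y, z))) → (∀ y, ρ ≤ p (Sum.inr y)) →
    ∀ out : Λ → ℝ, (∀ y, 0 ≤ out y) →
    (∀ x y, ∑' z : {z : V // z ∉ Set.range (ι x)}, ENNReal.ofReal (a (ι x y) z) ≤
      ENNReal.ofReal (out y)) →
    psi p n S o ρ r out < 1 →
    ∀ x, P {ω | ∀ m, ∃ y, ReachW (fun i => Z i ω) 0 m x y} = 0

/-- **[DYN]** Windows of length `δ` of the dynamical model with attempts at rate `lam' ≤ lam`: there is
an independent family `Z` which dominates it.

Proof. Fix a pair `e` off the diagonal; `s = gam v_e`, `π = q p_e`, so opening marks have the rate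
`s π`, closing marks the rate `s (1 - π)`. Choose `M = M_e ≥ 1` with `u := s δ / M ≤ κ`; let
`η = δ / M`. Window `j` is cut into the pieces `I_k = (j δ + k η, j δ + (k+1) η]`, `k < M`. Let
`closed_k` be the event: there is `k' < k` with at least one closing mark in `I_{k'}` and no opening
mark in `I_{k'}, …, I_k`. Put `Z (inl e, j) = true` iff there is `k < M` with an attempt in `I_k` and
not `closed_k`; `Z (inr x, j) = true` iff there is no recovery mark of `x` in window `j` (for `e` on the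
diagonal take `Z (inl e, j) = false`).
(a) If there is an attempt at `t ∈ I_k` and `closed_k` holds, then `e` is not open at `t`: let `u0` be
the closing mark in `I_{k'}`; an opening mark `s' ≤ t` lies before `I_{k'}`, so `s' < u0 ≤ t`; and
`0 < u0 ≤ t`. So [transmission at time `t` in window `j`] implies `Z (inl e, j) = true`.
(b) Independence: `Z (i, j)` is a function of finitely many numbers of points in rectangles, disjoint
for different `(i, j)`; blocks of an independent family are independent.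
(c) `P(closed_k) ≥ ∑_{k' < k} P(F_{k'})`, where the disjoint events `F_{k'}` ask for at least one closing
mark in `I_{k'}`, none in `I_{k'+1}, …, I_{k-1}`, no opening mark in `I_{k'}, …, I_k`;
`P(F_{k'}) = (1 - e^{-(1-π)u}) e^{-2πu} e^{-u m}`, `m = k-1-k'`, and the sum is
`(1 - e^{-(1-π)u}) e^{-2πu} (1 - e^{-uk}) / (1 - e^{-u}) ≥ (1-π) (1 - 2πu) (1 - e^{-uk})`
(concavity: `1 - e^{-(1-π)u} ≥ (1-π)(1 - e^{-u})`), so `P(not closed_k) ≤ π + 2πu + e^{-uk}`.
(d) `P(Z (inl e, j) = true) ≤ ∑_{k<M} lam η (π + 2πu + e^{-uk}) ≤ lam δ π (1+2u) + lam η / (1 - e^{-u})`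
and `1/(1 - e^{-u}) ≤ (1+u)/u`, `η/u = 1/s`, which gives the bound. -/
def S_DYN : Prop :=
  ∀ (V : Type) [Countable V] (G : SimpleGraph V) (p v : ℕ → ℝ) (lam lam' gam q δ κ : ℝ)
    (Ω : Type) [MeasurableSpace Ω] (P : Measure Ω) [IsProbabilityMeasure P]
    (N : Label V → Ω → Set ℝ) (B0 : Ω → Set (Sym2 V)),
    (∀ n, 0 ≤ p n ∧ p n ≤ 1) → (∀ n, 0 < v n) → 0 ≤ lam' → lam' ≤ lam → 0 < gam → 0 < q → q ≤ 1 →
    0 < δ → 0 < κ → κ ≤ 1 →
    IsPoissonFamily P (dynRate G p v lam' gam q) N →
    ∃ Z : (Sym2 V ⊕ V) × ℕ → Ω → Bool, (∀ i, Measurable (Z i)) ∧ iIndepFun Z P ∧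
      (∀ e j, ¬ e.IsDiag → P {ω | Z (Sum.inl e, j) ω = true} ≤
        ENNReal.ofReal (lam * δ * (q * pairVal G p e) * (1 + 2 * κ) +
          2 * lam / (gam * pairVal G v e))) ∧
      (∀ x j, P {ω | Z (Sum.inr x, j) ω = true} = ENNReal.ofReal (Real.exp (-δ))) ∧
      (∀ ω e (j : ℕ) t, ¬ e.IsDiag → j * δ < t → t ≤ (j + 1) * δ → t ∈ N (Label.att e) ω →
        OpenAt (B0 ω) (fun e => N (Label.opn e) ω) (fun e => N (Label.cls e) ω) e t →
        Z (Sum.inl e, j) ω = true) ∧
      (∀ ω x (j : ℕ), (∀ u, j * δ < u → u ≤ (j + 1) * δ → u ∉ N (Label.rcv x) ω) →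
        Z (Sum.inr x, j) ω = true)

/-- **[DET]** Infection paths pass through the windows.

Proof. Show by induction on `Infected` that for `j δ ≤ t ≤ (j+1) δ` (all `j`) `Infected o y t` implies
that there is `x` with `Infected o x (j δ)` and [`x = y` and no recovery mark of `x` in `(j δ, t]`] or
a `TransGen` chain of transmissions of window `j` from `x` to `y`; then use this with `t = (j+1) δ`
and induction on `m`. -/
def S_DET : Prop :=
  ∀ (V : Type) (rec : V → Set ℝ) (tr : Sym2 V → Set ℝ) (o : V) (δ : ℝ) (ω : Win V), 0 < δ →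
    (∀ e (j : ℕ) t, ¬ e.IsDiag → j * δ < t → t ≤ (j + 1) * δ → t ∈ tr e →
      ω (Sum.inl e, j) = true) →
    (∀ x (j : ℕ), (∀ u, j * δ < u → u ≤ (j + 1) * δ → u ∉ rec x) → ω (Sum.inr x, j) = true) →
    ∀ (m : ℕ) (y : V), Infected rec tr o y (m * δ) → ReachW ω 0 m o y

/-- **[EXI]** Independent Poisson processes exist.

Proof. For every `i` and every `k : ℕ` let `n_{i,k}` have the Poisson law with mean `rate i` and
`U_{i,k,0}, U_{i,k,1}, …` be uniform on `(k, k+1]`, everything independent (`Measure.infinitePi`);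
`N i = ⋃_k {U_{i,k,l} : l < n_{i,k}}`. (1) In one cell: for disjoint subintervals `J_1, …, J_m` of
`(k, k+1]` the numbers of points are independent Poisson with means `rate i |J_l|` (multinomial
splitting; almost surely the `U` are different, one may modify `N` on the null set where two of them
coincide). (2) A general interval is cut at the integers; sums of independent Poisson variables
are Poisson, blocks of independent families are independent. Several versions of this argument
are in the library (look for IsPoisson, Poisson point process, Camp.lean, Pois.lean). -/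
def S_EXI : Prop :=
  ∀ (ι : Type) [Countable ι] (rate : ι → ℝ), (∀ i, 0 ≤ rate i) →
    ∃ (Ω : Type) (_ : MeasurableSpace Ω) (P : Measure Ω) (_ : IsProbabilityMeasure P)
      (N : ι → Ω → Set ℝ), IsPoissonFamily P rate N

/-- **[FIN]** The extinction theorem for large `gam` (assembly of all the pieces). -/
def S_FIN : Prop :=
  ∀ (V : Type) (G : SimpleGraph V) (p v : ℕ → ℝ) (q : ℝ) (o : V), Data G p v q →
    ∀ lam lam' : ℝ, 0 ≤ lam → lam < lam' →
    (∃ (Ω : Type) (_ : MeasurableSpace Ω) (P : Measure Ω) (_ : IsProbabilityMeasure P)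
      (N : Sym2 V ⊕ V → Ω → Set ℝ), IsPoissonFamily P (staticRate G p lam' q) N ∧
        P {ω | StaticSurvives N o ω} = 0) →
    ∃ gam0 : ℝ, 0 < gam0 ∧ ∀ gam, gam0 ≤ gam → ∀ l, 0 ≤ l → l ≤ lam → ¬ DynPos G p v l gam q o

end Pool.Agent.H958.LR
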